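import Pool.Agent.H45.SF.RO

/-!
# MP_3b3fc8_lc: frames, lifts, goodness
-/

open Ordinal Cardinal Order Set
open scoped ZFSet

namespace SF

/-! ## The base forcing -/

/-- `ω₁` as a set -/
noncomputable def w1 : V := (Ordinal.omega.{0} 1).toZFSet

/-- conditions of the base forcing: sequences of length `α < ω₁` whose `β`-th term is a countable
set of subsets of `β` -/
def IsCnd (q : V) : Prop :=
  ∃ (α : Ordinal.{0}) (S : Ordinal.{0} → V), α < Ordinal.omega.{0} 1 ∧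
    (∀ β < α, ((S β : V) : Set V).Countable ∧ ∀ x ∈ S β, x ⊆ β.toZFSet) ∧
    q = ZFSet.range fun β : Set.Iio α => ZFSet.pair β.1.toZFSet (S β.1)

/-- the base forcing -/
noncomputable def P0 : V := (V_ (Ordinal.omega.{0} 1)).sep IsCnd

/-- the order of the base forcing -/
def leP0 (q q' : V) : Prop := q' ⊆ q

theorem leP0_refl (p : V) : leP0 p p := fun _ h => h

theorem leP0_trans {p q r : V} (h : leP0 p q) (h' : leP0 q r) : leP0 p r := fun _ hz => h (h' hz)

/-- the base algebra -/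
noncomputable def B0 : V := RO P0 leP0

instance : IsCBA B0 := isCBA_RO (fun _ _ => leP0_refl _) fun _ _ _ _ _ _ h h' => leP0_trans h h'

/-- `p` forces that `S` belongs to the `δ`-th term of the generic sequence, as a set -/
noncomputable def accV (δ S : V) : V :=
  P0.sep fun q => ∀ r ∈ P0, leP0 r q → ∃ s ∈ P0, leP0 s r ∧ ∃ T, ZFSet.pair δ T ∈ s ∧ S ∈ T

theorem accV_mem (δ S : V) : accV δ S ∈ B0 := by
  refine mem_RO.2 ⟨fun z hz => (ZFSet.mem_sep.1 hz).1, ?_, ?_⟩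
  · intro p hp q hq hqp
    obtain ⟨h1, h2⟩ := ZFSet.mem_sep.1 hp
    exact ZFSet.mem_sep.2 ⟨hq, fun r hr hrq => h2 r hr (leP0_trans hrq hqp)⟩
  · intro p hp h
    refine ZFSet.mem_sep.2 ⟨hp, fun r hr hrp => ?_⟩
    obtain ⟨t, ht, htr⟩ := h r hr hrp
    obtain ⟨h1, h2⟩ := ZFSet.mem_sep.1 ht
    obtain ⟨s, hs, hst, h3⟩ := h2 t h1 (leP0_refl t)
    exact ⟨s, hs, leP0_trans hst htr, h3⟩

/-- the value of `S` belongs to the `δ`-th term of the generic sequence -/
noncomputable def acc (δ S : V) : El B0 := ⟨accV δ S, accV_mem δ S⟩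

/-! ## Maps with values in an algebra -/

/-- `σ` is a name, with Boolean value `b`, of an elementary map from `N'` to `N`; `σ x y` is the
Boolean value of `σ x = y`. -/
structure BMap (N' N : V) {B : V} [IsCBA B] (b : El B) (σ : V → V → El B) : Prop where
  tot : ∀ x ∈ N', ⨆ y, σ x y = b
  fn : ∀ x y y', y ≠ y' → σ x y ⊓ σ x y' = ⊥
  dom : ∀ x y, σ x y ≠ ⊥ → x ∈ N' ∧ y ∈ N
  el : ∀ s : Finset (V × V), (s.inf fun q => σ q.1 q.2) ≠ ⊥ → ∀ v : ℕ → V × V,
    (∀ i, v i ∈ s) → ∀ φ : Fml,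
      (Sat (· ∈ N') φ (fun i => (v i).1) ↔ Sat (· ∈ N) φ (fun i => (v i).2))

/-- `(N', N)` is a nice pair -/
structure NP (N' N : V) : Prop where
  zfc : ZFCm (· ∈ N)
  lev : ∃ (A : V) (τ : Ordinal.{0}), A ∈ N ∧ N = LA A τ
  full : Full (fun _ => True) N'
  ctb : (N' : Set V).Countable

/-- `G` is a generic filter over `N` on the algebra `C` (of `N`), without the element `∅` -/
structure NGen (N C G : V) : Prop where
  sub : G ⊆ C
  ne : G.Nonempty
  bot : ∅ ∉ G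
  up : ∀ x ∈ G, ∀ y ∈ C, x ⊆ y → y ∈ G
  inter : ∀ x ∈ G, ∀ y ∈ G, x ∩ y ∈ G
  meets : ∀ D ∈ N, D ⊆ C → (∀ x ∈ C, x ≠ ∅ → ∃ d ∈ D, d ≠ ∅ ∧ d ⊆ x) → ∃ d ∈ D, d ∈ G

/-- the subset of `w` with the name `r`: the set of all `β ∈ w` with `(β, c) ∈ r`, `c ∈ G` -/
noncomputable def ev (w r G : V) : V := w.sep fun β => ∃ c ∈ G, ZFSet.pair β c ∈ r

/-! ## Algebras over the base algebra -/

/-- a complete Boolean algebra with a (unital) morphism from the base algebra -/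
structure BA : Type 1 where
  B : V
  [cba : IsCBA B]
  g : Mor B0 B
  unit : g ⊤ = ⊤

attribute [instance] BA.cba

/-- morphisms over the base algebra -/
structure BMor (A C : BA) : Type 1 extends Mor A.B C.B where
  base : ∀ x, f (A.g x) = C.g x ⊓ f ⊤

instance (A C : BA) : CoeFun (BMor A C) fun _ => El A.B → El C.B := ⟨fun h => h.f⟩

/-- a frame for the morphism `h` and the parameter `p` -/
structure Frame {A C : BA} (h : BMor A C) (p : V) : Type 1 where
  (N' N : V) (b : El A.B) (σ : V → V → El A.B)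
  (w B' C' h' p' G' : V)
  np : NP N' N
  ne : b ≠ ⊥
  map : BMap N' N b σ
  kw : σ w w1 = b
  kB : σ B' A.B = b
  kC : σ C' C.B = b
  kh : σ h' h.gr = b
  kp : σ p' p = b
  gen : NGen N' C' G'
  top : ∃ x y, ZFSet.pair x y ∈ h' ∧ y ∈ G'
  com : ∀ x y, ZFSet.pair x y ∈ h' → y ∈ G' → ∀ z, σ x z ≤ mkEl A.B z
  sc : ∀ r ∈ N', b ≤ A.g (acc w (ev w r G'))

/-- `c` and `σ'` are a lift of the frame `F` which preserves `q` -/
structure IsLift {A C : BA} {h : BMor A C} {p : V} (F : Frame h p) (q : V) (c : El C.B)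
    (σ' : V → V → El C.B) : Prop where
  le : c ≤ h F.b
  proj : ∀ b, c ≤ h b → F.b ≤ b
  map : BMap F.N' F.N c σ'
  com : ∀ x ∈ F.G', ∀ z, σ' x z ≤ mkEl C.B z
  keep : ∀ z, c ⊓ h (F.σ q z) ≤ σ' q z

/-- the morphism `h` is good -/
def Good {A C : BA} (h : BMor A C) : Prop :=
  ∃ p : V, ∀ F : Frame h p, ∀ q ∈ F.N', ∃ c σ', IsLift F q c σ'

end SF
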