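import Pool.Agent.H45.SF.UT

/-!
# MP_3b3fc8_lc, module G1: composition of good morphisms
-/

set_option linter.unusedVariables false

open Ordinal Cardinal Order Set
open scoped ZFSet

namespace SF.H45

open SF

section

variable {B : V} [IsCBA B] {N' N : V} {b : El B} {σ : V → V → El B}

theorem g1_le (hM : BMap N' N b σ) (x y : V) : σ x y ≤ b := by
  by_cases h : σ x y = ⊥
  · rw [h]; exact bot_le
  · rw [← hM.tot x (hM.dom x y h).1]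
    exact le_iSup (fun y => σ x y) y

theorem g1_pick (hM : BMap N' N b σ) {x : V} (hx : x ∈ N') {c : El B} (hc : c ≤ b)
    (hc0 : c ≠ ⊥) : ∃ y, c ⊓ σ x y ≠ ⊥ := by
  by_contra hcon
  simp only [not_exists, not_not] at hcon
  apply hc0
  have h1 : c ⊓ ⨆ y, σ x y = ⊥ := by
    rw [inf_iSup_eq]
    simp [hcon]
  rw [hM.tot x hx, inf_eq_left.2 hc] at h1
  exact h1

theorem g1_mono {x y : El B} (h : x ≤ y) (hx : x ≠ ⊥) : y ≠ ⊥ :=
  fun h2 => hx (le_bot_iff.1 (h2 ▸ h))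

/-- decomposition of a known pair -/
theorem g1_dec (hAP : T_AP) (hN : NP N' N) (hM : BMap N' N b σ) (hb : b ≠ ⊥) {z' y y2 : V}
    (h : σ z' (ZFSet.pair y y2) = b) : ∃ x ∈ N', ∃ x2 ∈ N', z' = ZFSet.pair x x2 ∧ σ x y = b ∧
      σ x2 y2 = b := by
  obtain ⟨-, h2, -⟩ := hAP B N' N b σ hN hM hb
  obtain ⟨x, hx, x2, hx2, e, h3⟩ := h2 z' y y2 (by rw [h]; exact hb)
  rw [h] at h3
  exact ⟨x, hx, x2, hx2, e, le_antisymm (g1_le hM _ _) (h3.trans inf_le_left),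
    le_antisymm (g1_le hM _ _) (h3.trans inf_le_right)⟩

end

theorem g1_gr {B C : V} [IsCBA B] [IsCBA C] (h : Mor B C) {x y : V} :
    ZFSet.pair x y ∈ h.gr ↔ ∃ u : El B, u.val = x ∧ (h u).val = y := by
  unfold Mor.gr
  rw [ZFSet.mem_range]
  constructor
  · rintro ⟨u, hu⟩
    obtain ⟨h1, h2⟩ := ZFSet.pair_inj.1 hu
    exact ⟨u, h1, h2⟩
  · rintro ⟨u, h1, h2⟩
    exact ⟨u, by rw [h1, h2]⟩

theorem g1_ex {B C : V} [IsCBA B] [IsCBA C] (h : Mor B C) :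
    ∀ y ∈ B, ∃! z, ZFSet.pair y z ∈ h.gr := by
  intro y hy
  refine ⟨(h ⟨y, hy⟩).val, (g1_gr h).2 ⟨⟨y, hy⟩, rfl, rfl⟩, ?_⟩
  intro z hz
  obtain ⟨u, hu, hz⟩ := (g1_gr h).1 hz
  have : u = ⟨y, hy⟩ := El.ext hu
  rw [← hz, this]

/-- the set of names -/
noncomputable def g1r (r Bn jn : V) : V :=
  (ZFSet.prod (dm r) (rg jn)).sep fun q =>
    ∃ x ∈ Bn, ZFSet.pair (fst q) x ∈ r ∧ ZFSet.pair x (snd q) ∈ jn

theorem g1r_mem {N' : V} (k : ZFm (· ∈ N')) {r Bn jn : V} (hr : r ∈ N') (hB : Bn ∈ N')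
    (hj : jn ∈ N') : g1r r Bn jn ∈ N' := by
  have h1 : Tm ZFm (fun _ v => (ZFSet.prod (dm (v 0)) (rg (v 2))).sep fun q =>
      ∃ x ∈ v 1, ZFSet.pair (fst q) x ∈ v 0 ∧ ZFSet.pair x (snd q) ∈ v 2) := by
    refine Tm.sep (R := fun _ v => ∃ x ∈ v 2, ZFSet.pair (fst (v 0)) x ∈ v 1 ∧
      ZFSet.pair x (snd (v 0)) ∈ v 3) ?_ (Tm.prod (Tm.dm (Tm.var 0)) (Tm.rg (Tm.var 2)))
    exact Dfb.bex (R := fun _ v => ZFSet.pair (fst (v 1)) (v 0) ∈ v 2 ∧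
      ZFSet.pair (v 0) (snd (v 1)) ∈ v 4) ktr_zfm (Tm.var 2)
      ((Dfb.pairMem (Tm.fst (Tm.var 1)) (Tm.var 0) (Tm.var 2)).and
        (Dfb.pairMem (Tm.var 0) (Tm.snd (Tm.var 1)) (Tm.var 4)))
  exact h1.1 (· ∈ N') k (fun i => match i with | 0 => r | 1 => Bn | _ + 2 => jn) (fun i => by
    match i with
    | 0 => exact hr
    | 1 => exact hB
    | i + 2 => exact hj)

theorem g1r_ev {w r Bn jn G' : V} : ev w r (pull Bn jn G') = ev w (g1r r Bn jn) G' := by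
  ext β
  unfold ev
  simp only [ZFSet.mem_sep]
  refine and_congr_right fun _ => ?_
  constructor
  · rintro ⟨x, hx, h1⟩
    obtain ⟨h2, y, hy, h3⟩ := ZFSet.mem_sep.1 hx
    refine ⟨y, hy, ZFSet.mem_sep.2 ⟨?_, x, h2, ?_, ?_⟩⟩
    · exact ZFSet.pair_mem_prod.2 ⟨mem_dm.2 ⟨x, h1⟩, mem_rg.2 ⟨x, h3⟩⟩
    · rw [fst_pair]; exact h1
    · rw [snd_pair]; exact h3
  · rintro ⟨y, hy, h1⟩
    obtain ⟨-, x, hx, h2, h3⟩ := ZFSet.mem_sep.1 h1
    rw [fst_pair] at h2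
    rw [snd_pair] at h3
    exact ⟨x, ZFSet.mem_sep.2 ⟨hx, y, hy, h3⟩, h2⟩

/-- known elements remain known if they are preserved -/
theorem g1_keep {B C : V} [IsCBA B] [IsCBA C] {N' N : V} {b : El B} {e : El C}
    {σ : V → V → El B} {τ : V → V → El C} {h : Mor B C} (hM : BMap N' N e τ) (he : e ≤ h b)
    {x y : V} (hk : σ x y = b) (hp : ∀ z, e ⊓ h (σ x z) ≤ τ x z) : τ x y = e := by
  refine le_antisymm (g1_le hM _ _) ?_
  have h1 := hp y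
  rw [hk, inf_eq_left.2 he] at h1
  exact h1

theorem g1 (hMB : T_MB) (hZN : T_ZN) (hAM : T_AM) (hAP : T_AP) (hAF : T_AF) (hAU : T_AU)
    (hNR : T_NR) (hTU : T_TU) : T_G1 := by
  classical
  intro A C D h k hgood kgood
  obtain ⟨ph, hph⟩ := hgood
  obtain ⟨pk, hpk⟩ := kgood
  obtain ⟨hmono, hbot, -, -, -, -, -⟩ := hMB A.B C.B h.toMor
  obtain ⟨kmono, kbot, -, -, -, -, -⟩ := hMB C.B D.B k.toMor
  refine ⟨ZFSet.pair (prm h.toMor) (ZFSet.pair (prm k.toMor) (ZFSet.pair ph pk)), ?_⟩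
  intro F q hq
  have hM := F.map
  have hnp := F.np
  have hb := F.ne
  have hzf : ZFm (· ∈ F.N') := (hZN A.B F.N' F.N F.b F.σ hnp hM hb).toZFm
  obtain ⟨hAP1, -, -, htr, -, -⟩ := hAP A.B F.N' F.N F.b F.σ hnp hM hb
  have trN : ∀ {x y : V}, x ∈ y → y ∈ F.N' → x ∈ F.N' := fun hxy hy => htr _ hy hxy
  -- membership in a known set
  have kmem : ∀ {x X X2 y : V}, F.σ X X2 = F.b → F.σ x y ≠ ⊥ → (x ∈ X ↔ y ∈ X2) := by
    intro x X X2 y hX hxy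
    refine (hAM A.B F.N' F.N F.b F.σ hnp hM x y X X2 ?_).1
    rw [hX, inf_eq_left.2 (g1_le hM x y)]
    exact hxy
  have pprN : ∀ {x y z : V}, ZFSet.pair x y ∈ z → z ∈ F.N' → x ∈ F.N' ∧ y ∈ F.N' :=
    fun hxy hz => hzf.of_pair_mem hz hxy
  -- decomposition of the parameter
  obtain ⟨P1, hP1, r1, hr1, -, kP1, kr1⟩ := g1_dec hAP hnp hM hb F.kp
  obtain ⟨P2, hP2, r2, hr2, -, kP2, kr2⟩ := g1_dec hAP hnp hM hb kr1
  obtain ⟨ph', hph', pk', hpk', -, kph, kpk⟩ := g1_dec hAP hnp hM hb kr2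
  obtain ⟨B1, hB1, s1, -, -, kB1, ks1⟩ := g1_dec hAP hnp hM hb kP1
  obtain ⟨C1, hC1, s2, -, -, kC1, ks2⟩ := g1_dec hAP hnp hM hb ks1
  obtain ⟨hg, hhg, s3, -, -, khg, -⟩ := g1_dec hAP hnp hM hb ks2
  obtain ⟨C2, hC2, t1, -, -, kC2, kt1⟩ := g1_dec hAP hnp hM hb kP2
  obtain ⟨D2, hD2, t2, -, -, kD2, kt2⟩ := g1_dec hAP hnp hM hb kt1
  obtain ⟨kg, hkg, t3, -, -, kkg, -⟩ := g1_dec hAP hnp hM hb kt2
  have hpN : F.p' ∈ F.N' := (hM.dom _ _ (by rw [F.kp]; exact hb)).1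
  have hwN : F.w ∈ F.N' := (hM.dom _ _ (by rw [F.kw]; exact hb)).1
  have hBN : F.B' ∈ F.N' := (hM.dom _ _ (by rw [F.kB]; exact hb)).1
  have hCN : F.C' ∈ F.N' := (hM.dom _ _ (by rw [F.kC]; exact hb)).1
  have hhN : F.h' ∈ F.N' := (hM.dom _ _ (by rw [F.kh]; exact hb)).1
  have hGN : ∀ {x}, x ∈ F.G' → x ∈ F.N' := fun hx => trN (F.gen.sub hx) hCN
  -- application of `h'`
  have afh := hAF A.B F.N' F.N F.b F.σ hnp hM hb hg h.gr F.B' A.B khg F.kB (g1_ex h.toMor)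
  have cg : ∀ {X Y : V}, ZFSet.pair X Y ∈ (h.comp k).gr → ∃ u : El A.B, u.val = X ∧
      (k (h u)).val = Y := fun hXY => (g1_gr (h.comp k).toMor).1 hXY
  -- the relation of the graphs
  have comp1 : ∀ x y y2, ZFSet.pair x y ∈ hg → ZFSet.pair y y2 ∈ kg →
      ZFSet.pair x y2 ∈ F.h' := by
    intro x y y2 h1 h2
    obtain ⟨hx, hy⟩ := pprN h1 hhg
    obtain ⟨-, hy2⟩ := pprN h2 hkg
    obtain ⟨X, hX⟩ := g1_pick hM hx le_rfl hb
    obtain ⟨Y, hY⟩ := g1_pick hM hy (inf_le_left : F.b ⊓ F.σ x X ≤ F.b) hX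
    obtain ⟨Y2, hY2⟩ := g1_pick hM hy2
      ((inf_le_left.trans inf_le_left) : F.b ⊓ F.σ x X ⊓ F.σ y Y ≤ F.b) hY
    have e1 : F.σ (ZFSet.pair x y) (ZFSet.pair X Y) ≠ ⊥ :=
      g1_mono ((le_inf (inf_le_left.trans (inf_le_left.trans inf_le_right))
        (inf_le_left.trans inf_le_right)).trans ((hAP1 x hx y hy).2.1 X Y)) hY2
    have e2 : F.σ (ZFSet.pair y y2) (ZFSet.pair Y Y2) ≠ ⊥ :=
      g1_mono ((le_inf (inf_le_left.trans inf_le_right) inf_le_right).trans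
        ((hAP1 y hy y2 hy2).2.1 Y Y2)) hY2
    have e3 : F.σ (ZFSet.pair x y2) (ZFSet.pair X Y2) ≠ ⊥ :=
      g1_mono ((le_inf (inf_le_left.trans (inf_le_left.trans inf_le_right))
        inf_le_right).trans ((hAP1 x hx y2 hy2).2.1 X Y2)) hY2
    obtain ⟨u, hu1, hu2⟩ := (g1_gr h.toMor).1 ((kmem khg e1).1 h1)
    obtain ⟨u2, hu3, hu4⟩ := (g1_gr k.toMor).1 ((kmem kkg e2).1 h2)
    have e4 : u2 = h u := El.ext (hu3.trans hu2.symm)
    refine (kmem F.kh e3).2 ((g1_gr (h.comp k).toMor).2 ⟨u, hu1, ?_⟩)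
    rw [e4] at hu4
    exact hu4
  -- a pair in `k'` with second component in `G'`
  obtain ⟨x0, y0, hxy0, hy0⟩ := F.top
  obtain ⟨hx0, hy0N⟩ := pprN hxy0 hhN
  obtain ⟨X0, hX0⟩ := g1_pick hM hx0 le_rfl hb
  obtain ⟨Y0, hY0⟩ := g1_pick hM hy0N (inf_le_left : F.b ⊓ F.σ x0 X0 ≤ F.b) hX0
  have e0 : F.σ (ZFSet.pair x0 y0) (ZFSet.pair X0 Y0) ≠ ⊥ :=
    g1_mono ((le_inf (inf_le_left.trans inf_le_right) inf_le_right).trans
      ((hAP1 x0 hx0 y0 hy0N).2.1 X0 Y0)) hY0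
  obtain ⟨u0, hu0, hu1⟩ := cg ((kmem F.kh e0).1 hxy0)
  have ex0 : F.σ x0 X0 ≠ ⊥ := g1_mono (inf_le_left.trans inf_le_right) hY0
  have hx0B : x0 ∈ F.B' := (kmem F.kB ex0).2 (by rw [← hu0]; exact u0.mem)
  obtain ⟨-, x2, hx2, hx2u, hx2v, hx2s⟩ := afh x0 hx0B
  have hxx2 : ZFSet.pair x0 x2 ∈ hg := (hx2u x2).2 rfl
  have ex2 : F.σ x0 X0 ≤ F.σ x2 (h u0).val := hx2s _ _ ((g1_gr h.toMor).2 ⟨u0, hu0, rfl⟩)
  have hx2y0 : ZFSet.pair x2 y0 ∈ kg := by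
    have e1 : F.σ (ZFSet.pair x2 y0) (ZFSet.pair (h u0).val Y0) ≠ ⊥ :=
      g1_mono ((le_inf ((inf_le_left.trans inf_le_right).trans ex2) inf_le_right).trans
        ((hAP1 x2 hx2 y0 hy0N).2.1 _ _)) hY0
    exact (kmem kkg e1).2 ((g1_gr k.toMor).2 ⟨h u0, rfl, hu1⟩)
  have hx2C : x2 ∈ C2 := (kmem kC2 (g1_mono ex2 ex0)).2 (h u0).mem
  have eD : D2 = F.C' := ((hAU A.B F.N' F.N F.b F.σ hnp hM hb F.C' D.B F.kC).2.2.1 D2 kD2)
  -- the generic filter for `C'`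
  have hG1 : NGen F.N' C2 (pull C2 kg F.G') :=
    hNR A.B F.N' F.N F.b F.σ hnp hM hb C.B D.B k.toMor P2 C2 F.C' kg F.G' kP2 kC2 F.kC kkg F.gen
      ⟨x2, y0, hx2y0, hy0⟩
  have hpullC : ∀ {x y : V}, ZFSet.pair x y ∈ kg → x ∈ C2 := by
    intro x y hxy
    obtain ⟨hx, hy⟩ := pprN hxy hkg
    obtain ⟨X, hX⟩ := g1_pick hM hx le_rfl hb
    obtain ⟨Y, hY⟩ := g1_pick hM hy (inf_le_left : F.b ⊓ F.σ x X ≤ F.b) hX
    have e1 : F.σ (ZFSet.pair x y) (ZFSet.pair X Y) ≠ ⊥ :=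
      g1_mono ((le_inf (inf_le_left.trans inf_le_right) inf_le_right).trans
        ((hAP1 x hx y hy).2.1 X Y)) hY
    obtain ⟨u, hu, -⟩ := (g1_gr k.toMor).1 ((kmem kkg e1).1 hxy)
    have e2 : F.σ x X ≠ ⊥ := g1_mono (inf_le_left.trans inf_le_right) hY
    exact (kmem kC2 e2).2 (by rw [← hu]; exact u.mem)
  -- the frame for `h`
  let F1 : Frame h ph :=
    { N' := F.N', N := F.N, b := F.b, σ := F.σ, w := F.w, B' := F.B', C' := C2, h' := hg,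
      p' := ph', G' := pull C2 kg F.G', np := hnp, ne := hb, map := hM, kw := F.kw, kB := F.kB,
      kC := kC2, kh := khg, kp := kph, gen := hG1,
      top := ⟨x0, x2, hxx2, ZFSet.mem_sep.2 ⟨hx2C, y0, hy0, hx2y0⟩⟩,
      com := by
        intro x y hxy hy z
        obtain ⟨-, y2, hy2, hyy2⟩ := ZFSet.mem_sep.1 hy
        exact F.com x y2 (comp1 x y y2 hxy hyy2) hy2 z
      sc := by
        intro r hr
        rw [g1r_ev]
        exact F.sc _ (g1r_mem hzf hr hC2 hkg) }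
  let l : List V := [q, F.w, C2, F.C', kg, pk']
  have hl : ∀ a ∈ l, a ∈ F.N' := by
    intro a ha
    simp only [l, List.mem_cons, List.not_mem_nil, or_false] at ha
    rcases ha with rfl | rfl | rfl | rfl | rfl | rfl <;> assumption
  have htl : tup l ∈ F.N' :=
    (hTU A.B A.B F.N' F.N F.b F.b F.σ F.σ (Mor.id A.B) hnp hM hM le_rfl l hl).1
  obtain ⟨c, σ1, L1⟩ := hph F1 (tup l) htl
  have L1le : c ≤ h F.b := L1.le
  have hkeep := (hTU A.B C.B F.N' F.N F.b c F.σ σ1 h.toMor hnp hM L1.map L1le l hl).2 L1.keep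
  have kp1 : ∀ {x y : V}, x ∈ l → F.σ x y = F.b → σ1 x y = c := fun hx hk =>
    g1_keep (h := h.toMor) L1.map L1le hk (hkeep _ hx)
  have hc : c ≠ ⊥ := by
    intro hc
    have h1 := L1.proj ⊥ (by rw [hc]; exact bot_le)
    exact hb (le_bot_iff.1 h1)
  -- the frame for `k`
  let F2 : Frame k pk :=
    { N' := F.N', N := F.N, b := c, σ := σ1, w := F.w, B' := C2, C' := F.C', h' := kg,
      p' := pk', G' := F.G', np := hnp, ne := hc, map := L1.map,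
      kw := kp1 (by simp [l]) F.kw, kB := kp1 (by simp [l]) kC2, kC := kp1 (by simp [l]) F.kC,
      kh := kp1 (by simp [l]) kkg, kp := kp1 (by simp [l]) kpk, gen := F.gen,
      top := ⟨x2, y0, hx2y0, hy0⟩,
      com := by
        intro x y hxy hy z
        have h1 : x ∈ pull C2 kg F.G' := ZFSet.mem_sep.2 ⟨hpullC hxy, y, hy, hxy⟩
        exact L1.com x h1 z
      sc := by
        intro r hr
        have h1 := hmono _ _ (F.sc r hr)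
        have h2 : h.f (A.g (acc F.w (ev F.w r F.G'))) =
            C.g (acc F.w (ev F.w r F.G')) ⊓ h.f ⊤ := h.base _
        exact (L1le.trans h1).trans (h2.le.trans inf_le_left) }
  obtain ⟨d, σ2, L2⟩ := hpk F2 q hq
  have L2le : d ≤ k c := L2.le
  refine ⟨d, σ2, ⟨L2le.trans (kmono _ _ L1le), ?_, L2.map, L2.com, ?_⟩⟩
  · intro b' hb'
    exact L1.proj b' (L2.proj (h b') hb')
  · intro z
    have h1 : d ⊓ k (h (F.σ q z)) ≤ d ⊓ k (σ1 q z) := by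
      refine le_inf inf_le_left ?_
      have h2 : d ⊓ k (h (F.σ q z)) ≤ k (c ⊓ h (F.σ q z)) := by
        rw [k.inf]
        exact inf_le_inf_right _ L2le
      exact h2.trans (kmono _ _ (hkeep q (by simp [l]) z))
    exact h1.trans (L2.keep z)

end SF.H45
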