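import Pool.Agent.H45.SF.G1

/-!
# MP_3b3fc8_lc, module G3: mixing
-/

set_option linter.unusedVariables false

open Ordinal Cardinal Order Set
open scoped ZFSet

namespace SF.H45

open SF

/-- the set of the values of a set of elements -/
noncomputable def g3S {C : V} (S : Set (El C)) : V := ZFSet.range fun s : S => s.1.val

theorem g3S_mem {C : V} {S : Set (El C)} {x : V} : x ∈ g3S S ↔ ∃ s ∈ S, s.val = x := by
  unfold g3S
  rw [ZFSet.mem_range]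
  constructor
  · rintro ⟨s, hs⟩; exact ⟨s.1, s.2, hs⟩
  · rintro ⟨s, hs, h⟩; exact ⟨⟨s, hs⟩, h⟩

/-- the elements which are disjoint from `t` or below an element of `S` -/
noncomputable def g3D (C t S : V) : V := C.sep fun d => d ∩ t = ∅ ∨ ∃ s ∈ S, d ⊆ s

/-- the function which maps `s` to the graph of the restriction and the witness -/
noncomputable def g3F {A C : BA} (h : BMor A C) (S : Set (El C.B)) (w : El C.B → V) : V :=
  ZFSet.range fun s : S => ZFSet.pair s.1.val (ZFSet.pair (h.res s.1).gr (w s.1))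

theorem g3F_mem {A C : BA} {h : BMor A C} {S : Set (El C.B)} {w : El C.B → V} {x y : V} :
    ZFSet.pair x y ∈ g3F h S w ↔ ∃ s ∈ S, s.val = x ∧ ZFSet.pair (h.res s).gr (w s) = y := by
  unfold g3F
  rw [ZFSet.mem_range]
  constructor
  · rintro ⟨s, hs⟩
    obtain ⟨h1, h2⟩ := ZFSet.pair_inj.1 hs
    exact ⟨s.1, s.2, h1, h2⟩
  · rintro ⟨s, hs, h1, h2⟩
    exact ⟨⟨s, hs⟩, by rw [h1, h2]⟩

theorem g3 (hMB : T_MB) (hZN : T_ZN) (hTR : T_TR) (hAM : T_AM) (hAP : T_AP) (hAF : T_AF)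
    (hAD : T_AD) (hBR : T_BR) (hBJ : T_BJ) : T_G3 := by
  classical
  intro A C h S hS hdis hgood
  obtain ⟨hmono, hbot, -, -, -, hiS, -⟩ := hMB A.B C.B h.toMor
  let wt : El C.B → V := fun s => if hs : s ∈ S then (hgood s hs).choose else ∅
  have hwt : ∀ s ∈ S, GoodW (h.res s) (wt s) := by
    intro s hs
    show GoodW (h.res s) (if hs : s ∈ S then (hgood s hs).choose else ∅)
    rw [dif_pos hs]
    exact (hgood s hs).choose_spec
  refine ⟨ZFSet.pair (g3S S) (ZFSet.pair (g3F h S wt) (ZFSet.pair (g3D C.B (h ⊤).val (g3S S))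
    (h ⊤).val)), ?_⟩
  intro F q hq
  have hM := F.map
  have hnp := F.np
  have hb := F.ne
  have hzf : ZFm (· ∈ F.N') := (hZN A.B F.N' F.N F.b F.σ hnp hM hb).toZFm
  obtain ⟨hAP1, hAP2, hAP3, htr, -, -⟩ := hAP A.B F.N' F.N F.b F.σ hnp hM hb
  have hle := g1_le hM
  have kmem : ∀ {x X X2 y : V}, F.σ X X2 = F.b → F.σ x y ≠ ⊥ → (x ∈ X ↔ y ∈ X2) := by
    intro x X X2 y hX hxy
    refine (hAM A.B F.N' F.N F.b F.σ hnp hM x y X X2 ?_).1
    rw [hX, inf_eq_left.2 (hle x y)]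
    exact hxy
  have ksub : ∀ {x X X2 y : V}, F.σ X X2 = F.b → F.σ x y ≠ ⊥ → (x ⊆ X ↔ y ⊆ X2) := by
    intro x X X2 y hX hxy
    refine (hAM A.B F.N' F.N F.b F.σ hnp hM x y X X2 ?_).2.2.1
    rw [hX, inf_eq_left.2 (hle x y)]
    exact hxy
  have pprN : ∀ {x y z : V}, ZFSet.pair x y ∈ z → z ∈ F.N' → x ∈ F.N' ∧ y ∈ F.N' :=
    fun hxy hz => hzf.of_pair_mem hz hxy
  have hCN : F.C' ∈ F.N' := (hM.dom _ _ (by rw [F.kC]; exact hb)).1
  have hhN : F.h' ∈ F.N' := (hM.dom _ _ (by rw [F.kh]; exact hb)).1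
  have hGN : ∀ {x}, x ∈ F.G' → x ∈ F.N' := fun hx => htr _ hCN (F.gen.sub hx)
  obtain ⟨S', hS', r1, -, -, kS, kr1⟩ := g1_dec hAP hnp hM hb F.kp
  obtain ⟨W', hW', r2, -, -, kW, kr2⟩ := g1_dec hAP hnp hM hb kr1
  obtain ⟨D', hD', t', ht', -, kD, kt⟩ := g1_dec hAP hnp hM hb kr2
  -- a dense set
  have hDd := hAD A.B F.N' F.N F.b F.σ hnp hM hb F.C' C.B F.kC D' (g3D C.B (h ⊤).val (g3S S))
    (by rw [kD]; exact hb)
  have hDsub : D' ⊆ F.C' := hDd.1.2 fun x hx => (ZFSet.mem_sep.1 hx).1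
  have hDns : ∀ x ∈ F.C', x ≠ ∅ → ∃ d ∈ D', d ≠ ∅ ∧ d ⊆ x := by
    refine hDd.2.2 fun x hx hx0 => ?_
    by_cases hc : x ∩ (h ⊤).val = ∅
    · exact ⟨x, ZFSet.mem_sep.2 ⟨hx, Or.inl hc⟩, hx0, fun _ h => h⟩
    · have h1 : (⟨x, hx⟩ : El C.B) ⊓ h ⊤ ≠ ⊥ := by
        intro h2
        apply hc
        have h3 := congrArg El.val h2
        rw [El.inf_val, El.bot_val] at h3
        exact h3
      have h2 : (⟨x, hx⟩ : El C.B) ⊓ sSup S ≠ ⊥ := by rw [hS]; exact h1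
      rw [inf_sSup_eq] at h2
      have h3 : ∃ s ∈ S, (⟨x, hx⟩ : El C.B) ⊓ s ≠ ⊥ := by
        by_contra hcon
        push Not at hcon
        apply h2
        exact le_bot_iff.1 (iSup₂_le fun s hs => (hcon s hs).le)
      obtain ⟨s, hs, h4⟩ := h3
      have h6 : ((⟨x, hx⟩ : El C.B) ⊓ s).val ⊆ (⟨x, hx⟩ : El C.B).val :=
        El.le_iff.1 inf_le_left
      refine ⟨((⟨x, hx⟩ : El C.B) ⊓ s).val, ZFSet.mem_sep.2 ⟨El.mem _, Or.inr
        ⟨s.val, g3S_mem.2 ⟨s, hs, rfl⟩, El.le_iff.1 inf_le_right⟩⟩, ?_, h6⟩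
      intro h5
      apply h4
      apply El.ext
      rw [h5, El.bot_val]
  obtain ⟨d, hd, hdG⟩ := F.gen.meets D' hD' hDsub hDns
  -- the alternative for the elements of `D'`
  have halt : ∀ d ∈ D', d ∩ t' = ∅ ∨ ∃ s ∈ S', d ⊆ s := by
    have hdf : Dfb ZFm (fun _ v => ∀ d ∈ v 0, d ∩ v 1 = ∅ ∨ ∃ s ∈ v 2, d ⊆ s) := by
      refine (Dfb.ball (R := fun _ v => v 0 ∩ v 2 = ∅ ∨ ∃ s ∈ v 3, v 0 ⊆ s) ktr_zfm
        (Tm.var 0) ?_).congr fun M k v hv => Iff.rfl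
      refine (Dfb.eq (Tm.inter (Tm.var 0) (Tm.var 2)) Tm.empty).or ?_
      exact (Dfb.bex (R := fun _ v => v 1 ⊆ v 0) ktr_zfm (Tm.var 3)
        (Dfb.subset (Tm.var 1) (Tm.var 0))).congr fun M k v hv => Iff.rfl
    let sf : Finset (V × V) := {(D', g3D C.B (h ⊤).val (g3S S)), (t', (h ⊤).val), (S', g3S S)}
    let vf : ℕ → V × V := fun i => match i with
      | 0 => (D', g3D C.B (h ⊤).val (g3S S))
      | 1 => (t', (h ⊤).val)
      | _ + 2 => (S', g3S S)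
    have h1 := hTR _ hdf A.B F.N' F.N F.b F.σ hnp hM sf
      (by
        have : sf.inf (fun q => F.σ q.1 q.2) = F.b := by
          simp only [sf, Finset.inf_insert, Finset.inf_singleton]
          rw [kD, kt, kS, inf_idem, inf_idem]
        rw [this]; exact hb)
      vf
      (by
        intro i
        match i with
        | 0 => simp [sf, vf]
        | 1 => simp [sf, vf]
        | i + 2 => simp [sf, vf])
    refine h1.2 ?_
    show ∀ d ∈ g3D C.B (h ⊤).val (g3S S), d ∩ (h ⊤).val = ∅ ∨ ∃ s ∈ g3S S, d ⊆ s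
    intro d hd
    exact (ZFSet.mem_sep.1 hd).2
  -- a pair in `h'` with second component in `G'`
  obtain ⟨x0, y0, hxy0, hy0⟩ := F.top
  have hpick2 : ∀ {x y : V}, x ∈ F.N' → y ∈ F.N' → ∀ c ≤ F.b, c ≠ ⊥ → ∃ X Y,
      F.σ x X ≠ ⊥ ∧ F.σ y Y ≠ ⊥ ∧ F.σ (ZFSet.pair x y) (ZFSet.pair X Y) ≠ ⊥ ∧
        c ⊓ (F.σ x X ⊓ F.σ y Y) ≠ ⊥ := by
    intro x y hx hy c hc hc0
    obtain ⟨X, hX⟩ := g1_pick hM hx hc hc0
    obtain ⟨Y, hY⟩ := g1_pick hM hy (inf_le_left.trans hc : c ⊓ F.σ x X ≤ F.b) hX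
    refine ⟨X, Y, g1_mono (inf_le_left.trans inf_le_right) hY, g1_mono inf_le_right hY, ?_, ?_⟩
    · exact g1_mono ((le_inf (inf_le_left.trans inf_le_right) inf_le_right).trans
        ((hAP1 x hx y hy).2.1 X Y)) hY
    · rw [← inf_assoc]; exact hY
  have hh't : ∀ {x y : V}, ZFSet.pair x y ∈ F.h' → y ⊆ t' := by
    intro x y hxy
    obtain ⟨hx, hy⟩ := pprN hxy hhN
    obtain ⟨X, Y, -, hY, hXY, -⟩ := hpick2 hx hy F.b le_rfl hb
    obtain ⟨u, -, hu⟩ := (g1_gr h.toMor).1 ((kmem F.kh hXY).1 hxy)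
    refine (ksub kt hY).2 ?_
    rw [← hu]
    exact El.le_iff.1 (hmono _ _ le_top)
  obtain ⟨s', hs', hds⟩ : ∃ s ∈ S', d ⊆ s := by
    rcases halt d hd with h1 | h1
    · exfalso
      have h2 := F.gen.inter d hdG y0 hy0
      have h3 : d ∩ y0 = ∅ := by
        refine subset_antisymm ?_ (ZFSet.empty_subset _)
        intro z hz
        obtain ⟨h4, h5⟩ := ZFSet.mem_inter.1 hz
        rw [← h1]
        exact ZFSet.mem_inter.2 ⟨h4, hh't hxy0 h5⟩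
      rw [h3] at h2
      exact F.gen.bot h2
    · exact h1
  have hs'N : s' ∈ F.N' := htr _ hS' hs'
  have hsv : ∀ z, F.σ s' z ≠ ⊥ → ∃ s ∈ S, s.val = z := fun z hz => g3S_mem.1 ((kmem kS hz).1 hs')
  have hs'C : s' ∈ F.C' := by
    obtain ⟨z, hz⟩ := g1_pick hM hs'N le_rfl hb
    have hz2 : F.σ s' z ≠ ⊥ := g1_mono inf_le_right hz
    obtain ⟨s, -, hs⟩ := hsv z hz2
    exact (kmem F.kC hz2).2 (by rw [← hs]; exact s.mem)
  have hs'G : s' ∈ F.G' := F.gen.up d hdG s' hs'C hds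
  -- the restriction at `s'`
  have afW := hAF A.B F.N' F.N F.b F.σ hnp hM hb W' (g3F h S wt) S' (g3S S) kW kS (by
    intro y hy
    obtain ⟨s, hs, rfl⟩ := g3S_mem.1 hy
    refine ⟨ZFSet.pair (h.res s).gr (wt s), g3F_mem.2 ⟨s, hs, rfl, rfl⟩, ?_⟩
    intro z hz
    obtain ⟨s2, -, h1, h2⟩ := g3F_mem.1 hz
    have : s2 = s := El.ext h1
    rw [← h2, this])
  obtain ⟨-, e', he', -, -, heS⟩ := afW s' hs'
  -- `e'` is a pair
  have heq : ∃ h1 ∈ F.N', ∃ p1 ∈ F.N', e' = ZFSet.pair h1 p1 ∧ ∀ s ∈ S,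
      F.σ s' s.val ≤ F.σ h1 (h.res s).gr ⊓ F.σ p1 (wt s) := by
    obtain ⟨z, hz⟩ := g1_pick hM hs'N le_rfl hb
    have hz2 : F.σ s' z ≠ ⊥ := g1_mono inf_le_right hz
    obtain ⟨s, hs, rfl⟩ := hsv z hz2
    have h1 : F.σ s' s.val ≤ F.σ e' (ZFSet.pair (h.res s).gr (wt s)) :=
      heS _ _ (g3F_mem.2 ⟨s, hs, rfl, rfl⟩)
    obtain ⟨h1', hh1, p1', hp1, e, h2⟩ := hAP2 e' _ _ (g1_mono h1 hz2)
    refine ⟨h1', hh1, p1', hp1, e, fun s2 hs2 => ?_⟩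
    by_cases h0 : F.σ s' s2.val = ⊥
    · rw [h0]; exact bot_le
    have h3 : F.σ s' s2.val ≤ F.σ e' (ZFSet.pair (h.res s2).gr (wt s2)) :=
      heS _ _ (g3F_mem.2 ⟨s2, hs2, rfl, rfl⟩)
    obtain ⟨x1, -, x2, -, e3, h4⟩ := hAP2 e' _ _ (g1_mono h3 h0)
    rw [e] at e3
    obtain ⟨e4, e5⟩ := ZFSet.pair_inj.1 e3
    rw [e4, e5]
    exact h3.trans h4
  obtain ⟨h1, hh1, p1, hp1, rfl, hval⟩ := heq
  -- elements of the graph `h1`
  have afh := hAF A.B F.N' F.N F.b F.σ hnp hM hb F.h' h.gr F.B' A.B F.kh F.kB (g1_ex h.toMor)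
  have hg1 : ∀ x ∈ F.N', ∀ y ∈ F.N', ∀ y2 ∈ F.N', ZFSet.pair x y2 ∈ F.h' →
      (ZFSet.pair x y ∈ h1 ↔ y = y2 ∩ s') := by
    intro x hx y hy y2 hy2 hxy2
    obtain ⟨z, hz⟩ := g1_pick hM hs'N le_rfl hb
    have hz2 : F.σ s' z ≠ ⊥ := g1_mono inf_le_right hz
    obtain ⟨X, Y, hX, hY, hXY, hXY2⟩ := hpick2 hx hy _ (hle s' z) hz2
    obtain ⟨Y2, hY2⟩ := g1_pick hM hy2 (inf_le_left.trans (hle s' z)) hXY2
    obtain ⟨s, hs, rfl⟩ := hsv z hz2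
    have a1 : F.σ s' s.val ⊓ (F.σ x X ⊓ F.σ y Y) ⊓ F.σ y2 Y2 ≤ F.σ s' s.val :=
      inf_le_left.trans inf_le_left
    have a2 : F.σ s' s.val ⊓ (F.σ x X ⊓ F.σ y Y) ⊓ F.σ y2 Y2 ≤ F.σ x X :=
      inf_le_left.trans (inf_le_right.trans inf_le_left)
    have a3 : F.σ s' s.val ⊓ (F.σ x X ⊓ F.σ y Y) ⊓ F.σ y2 Y2 ≤ F.σ y Y :=
      inf_le_left.trans (inf_le_right.trans inf_le_right)
    have e1 : F.σ (ZFSet.pair x y) (ZFSet.pair X Y) ⊓ F.σ h1 (h.res s).gr ≠ ⊥ :=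
      g1_mono (le_inf ((le_inf a2 a3).trans ((hAP1 x hx y hy).2.1 X Y))
        (a1.trans ((hval s hs).trans inf_le_left))) hY2
    have e2 : F.σ (ZFSet.pair x y2) (ZFSet.pair X Y2) ≠ ⊥ :=
      g1_mono ((le_inf a2 inf_le_right).trans ((hAP1 x hx y2 hy2).2.1 X Y2)) hY2
    obtain ⟨u, hu1, hu2⟩ := (g1_gr h.toMor).1 ((kmem F.kh e2).1 hxy2)
    have e3 : ZFSet.pair x y ∈ h1 ↔ ZFSet.pair X Y ∈ (h.res s).gr :=
      (hAM A.B F.N' F.N F.b F.σ hnp hM _ _ _ _ e1).1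
    have e4 : F.σ (y2 ∩ s') (Y2 ∩ s.val) ⊓ F.σ y Y ≠ ⊥ :=
      g1_mono (le_inf ((le_inf inf_le_right a1).trans ((hAP3 y2 hy2 s' hs'N).2 Y2 s.val)) a3) hY2
    have e5 : y2 ∩ s' = y ↔ Y2 ∩ s.val = Y :=
      (hAM A.B F.N' F.N F.b F.σ hnp hM _ _ _ _ e4).2.1
    rw [e3, eq_comm, e5]
    constructor
    · intro h6
      obtain ⟨u2, hu3, hu4⟩ := (g1_gr (h.res s).toMor).1 h6
      have : u2 = u := El.ext (hu3.trans hu1.symm)
      rw [this] at hu4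
      rw [← hu4, ← hu2]
      exact (El.inf_val _ _).symm
    · intro h6
      refine (g1_gr (h.res s).toMor).2 ⟨u, hu1, ?_⟩
      rw [← h6, ← hu2]
      exact El.inf_val _ _
  have hdom1 : ∀ {x y : V}, ZFSet.pair x y ∈ h1 → x ∈ F.B' := by
    intro x y hxy
    obtain ⟨hx, hy⟩ := pprN hxy hh1
    obtain ⟨z, hz⟩ := g1_pick hM hs'N le_rfl hb
    have hz2 : F.σ s' z ≠ ⊥ := g1_mono inf_le_right hz
    obtain ⟨X, Y, hX, hY, hXY, hXY2⟩ := hpick2 hx hy _ (hle s' z) hz2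
    obtain ⟨s, hs, rfl⟩ := hsv z hz2
    have e1 : F.σ (ZFSet.pair x y) (ZFSet.pair X Y) ⊓ F.σ h1 (h.res s).gr ≠ ⊥ :=
      g1_mono (le_inf (inf_le_right.trans ((hAP1 x hx y hy).2.1 X Y))
        (inf_le_left.trans ((hval s hs).trans inf_le_left))) hXY2
    have e3 := (hAM A.B F.N' F.N F.b F.σ hnp hM _ _ _ _ e1).1.1 hxy
    obtain ⟨u, hu, -⟩ := (g1_gr (h.res s).toMor).1 e3
    exact (kmem F.kB hX).2 (by rw [← hu]; exact u.mem)
  -- the frames for the restrictions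
  let I : Type 1 := {s : El C.B // s ∈ S ∧ F.σ s' s.val ≠ ⊥}
  have hfr : ∀ i : I, ∃ (c : El C.B) (τ : V → V → El C.B), c ≤ h (F.σ s' i.1.val) ⊓ i.1 ∧
      (∀ b, c ≤ h b ⊓ i.1 → F.σ s' i.1.val ≤ b) ∧ BMap F.N' F.N c τ ∧
      (∀ x ∈ F.G', ∀ z, τ x z ≤ mkEl C.B z) ∧
      ∀ z, c ⊓ (h (F.σ q z ⊓ F.σ s' i.1.val) ⊓ i.1) ≤ τ q z := by
    rintro ⟨s, hs, hs0⟩
    have kn : ∀ {x y : V}, F.σ s' s.val ≤ F.σ x y → F.σ x y ⊓ F.σ s' s.val = F.σ s' s.val :=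
      fun hxy => inf_eq_right.2 hxy
    have kn2 : ∀ {x y : V}, F.σ x y = F.b → F.σ x y ⊓ F.σ s' s.val = F.σ s' s.val :=
      fun hxy => kn (by rw [hxy]; exact hle _ _)
    have hBR1 := hBR A.B A.B F.N' F.N F.b F.σ (Mor.id A.B) hM (F.σ s' s.val) (hle _ _)
    let F1 : Frame (h.res s) (wt s) :=
      { N' := F.N', N := F.N, b := F.σ s' s.val, σ := fun x y => F.σ x y ⊓ F.σ s' s.val,
        w := F.w, B' := F.B', C' := F.C', h' := h1, p' := p1, G' := F.G', np := hnp, ne := hs0,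
        map := hBR1, kw := kn2 F.kw, kB := kn2 F.kB, kC := kn2 F.kC,
        kh := kn ((hval s hs).trans inf_le_left), kp := kn ((hval s hs).trans inf_le_right),
        gen := F.gen,
        top := by
          obtain ⟨hx0, hy0N⟩ := pprN hxy0 hhN
          have h2 := F.gen.inter y0 hy0 s' hs'G
          exact ⟨x0, y0 ∩ s', (hg1 x0 hx0 _ (hGN h2) y0 hy0N hxy0).2 rfl, h2⟩
        com := by
          intro x y hxy hy z
          obtain ⟨hx, hyN⟩ := pprN hxy hh1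
          obtain ⟨-, y2, hy2, hy2u, -, -⟩ := afh x (hdom1 hxy)
          have hxy2 : ZFSet.pair x y2 ∈ F.h' := (hy2u y2).2 rfl
          have h3 := (hg1 x hx y hyN y2 hy2 hxy2).1 hxy
          have h4 : y2 ∈ F.C' := by
            obtain ⟨X, Y, -, hY, hXY, -⟩ := hpick2 hx hy2 F.b le_rfl hb
            obtain ⟨u, -, hu⟩ := (g1_gr h.toMor).1 ((kmem F.kh hXY).1 hxy2)
            exact (kmem F.kC hY).2 (by rw [← hu]; exact El.mem _)
          have h5 : y2 ∈ F.G' := F.gen.up y hy y2 h4 (by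
            rw [h3]
            exact fun z hz => (ZFSet.mem_inter.1 hz).1)
          exact inf_le_left.trans (F.com x y2 hxy2 h5 z)
        sc := fun r hr => (hle _ _).trans (F.sc r hr) }
    obtain ⟨c, τ, L⟩ := hwt s hs F1 q hq
    exact ⟨c, τ, L.le, L.proj, L.map, L.com, L.keep⟩
  choose c τ hc1 hc2 hc3 hc4 hc5 using hfr
  have hcd : ∀ i j : I, i ≠ j → c i ⊓ c j = ⊥ := by
    intro i j hij
    have h2 : i.1 ≠ j.1 := fun e => hij (Subtype.ext e)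
    have h3 := hdis i.1 i.2.1 j.1 j.2.1 h2
    exact le_bot_iff.1 ((inf_le_inf ((hc1 i).trans inf_le_right)
      ((hc1 j).trans inf_le_right)).trans h3.le)
  refine ⟨⨆ i, c i, fun x y => ⨆ i, τ i x y, ⟨?_, ?_, hBJ C.B F.N' F.N I c τ hcd hc3, ?_, ?_⟩⟩
  · exact iSup_le fun i => (hc1 i).trans (inf_le_left.trans (hmono _ _ (hle _ _)))
  · intro b' hb'
    have h2 : F.b = ⨆ z, F.σ s' z := (hM.tot s' hs'N).symm
    rw [h2]
    refine iSup_le fun z => ?_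
    by_cases hz : F.σ s' z = ⊥
    · rw [hz]; exact bot_le
    obtain ⟨s, hs, rfl⟩ := hsv z hz
    refine hc2 ⟨s, hs, hz⟩ b' (le_inf ((le_iSup c ⟨s, hs, hz⟩).trans hb') ?_)
    exact (hc1 ⟨s, hs, hz⟩).trans inf_le_right
  · intro x hx z
    exact iSup_le fun i => hc4 i x hx z
  · intro z
    rw [iSup_inf_eq]
    refine iSup_le fun i => le_trans ?_ (le_iSup (fun i => τ i q z) i)
    refine le_trans (le_inf inf_le_left (le_inf ?_ ?_)) (hc5 i z)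
    · have h2 : c i ⊓ h (F.σ q z) ≤ h (F.σ q z) ⊓ h (F.σ s' i.1.val) :=
        le_inf inf_le_right (inf_le_left.trans ((hc1 i).trans inf_le_left))
      have h3 : h (F.σ q z ⊓ F.σ s' i.1.val) = h (F.σ q z) ⊓ h (F.σ s' i.1.val) := h.inf _ _
      rw [h3]
      exact h2
    · exact inf_le_left.trans ((hc1 i).trans inf_le_right)

end SF.H45
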