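import Pool.Agent.H72.SF.XT
import Pool.Agent.H9.SF.Bas

/-! Club shooting, final form (module X4). -/

open Ordinal Cardinal Order Set
open scoped ZFSet

namespace SF.H45

open SF

theorem x4 (hXK : T_XK) (hXL : T_XL) (hXM : T_XM) (hRS : T_RS) : T_X4 := by
  classical
  intro C hC r
  obtain ⟨Z, k, e, hS⟩ := hXK C hC r
  refine ⟨Z, k, e, hXM C hC r Z k e hS, hS.top, hS.inj, hS.gv, hS.cmp, ?_⟩
  intro β hβ
  rw [eq_top_iff]
  let I : Type 1 := {t : V // t ∈ Tcl ∧ ∃ γ ∈ t, β.toZFSet ∈ γ}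
  let f : I → El Z.B := fun i => e i.1
  have h1 : (⨆ i : I, f i) ≤ sSup {z | ∃ t ∈ Tcl, (∃ γ ∈ t, β.toZFSet ∈ γ) ∧ z = e t} :=
    iSup_le fun i => le_sSup ⟨i.1, i.2.1, i.2.2, rfl⟩
  refine le_trans ?_ h1
  have key : ∀ (W : V) [IsCBA W], W = RO (QC C r) leQC → ∀ g : I → El W,
      (∀ i, (g i).val = (QC C r).sep fun z => ∀ z' ∈ QC C r, leQC z' z → ∃ z'' ∈ QC C r,
        leQC z'' z' ∧ EEx (snd z'') i.1) → (⊤ : El W) ≤ ⨆ i, g i := by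
    intro W _ hW g hg
    subst hW
    obtain ⟨r1, -, -, rtop, -⟩ := hRS (QC C r) leQC (fun _ _ => leQC_refl _)
      (fun _ _ _ _ _ _ h h' => leQC_trans h h')
    refine (r1 I g ⊤).2 ?_
    intro z hz
    rw [rtop] at hz
    obtain ⟨z', hz', hle, γ, hγ, hb⟩ := hXL C hC r z hz β hβ
    have ht : snd z' ∈ Tcl := by
      obtain ⟨h3, -⟩ := ZFSet.mem_sep.1 hz'
      obtain ⟨a, -, b, hb2, rfl⟩ := ZFSet.mem_prod.1 h3
      rw [snd_pair]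
      exact hb2
    refine ⟨z', hz', hle, ⟨snd z', ht, γ, hγ, hb⟩, ?_⟩
    rw [hg]
    exact ZFSet.mem_sep.2 ⟨hz', fun z2 hz2 h2 => ⟨z2, hz2, leQC_refl _, h2.2⟩⟩
  exact key Z.B hS.eq f fun i => hS.eval i.1

end SF.H45
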