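import Pool.Agent.H72.SF.XT

/-! XL of the board sf_modules: the density of long conditions (version 2 of the target; the proof
follows the file of helper81 for version 1). -/

open Ordinal Cardinal Order Set
open scoped ZFSet

namespace SF.H45

open SF

private theorem xl_mem {x : V} : x ∈ w1 ↔ ∃ α : Ordinal.{0}, α < o1 ∧ α.toZFSet = x := by
  unfold w1
  rw [Ordinal.mem_toZFSet_iff]

private theorem xl_lt {α β : Ordinal.{0}} : α.toZFSet ∈ β.toZFSet ↔ α < β :=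
  Ordinal.toZFSet_mem_toZFSet_iff

private theorem xl_tcl {t : V} {μ δ : Ordinal.{0}} (ht : Clb w1 t) (hm : μ.toZFSet ∈ t)
    (hmax : ∀ x ∈ t, x ∈ μ.toZFSet ∨ x = μ.toZFSet) (hmδ : μ < δ) (hδ : δ < o1) :
    insert δ.toZFSet t ∈ Tcl ∧ ∀ x ∈ t, x ∈ δ.toZFSet := by
  obtain ⟨h1, -, h3⟩ := ht
  have hδw : δ.toZFSet ∈ w1 := xl_mem.2 ⟨δ, hδ, rfl⟩
  have hlt : ∀ x ∈ t, x ∈ δ.toZFSet := by
    intro x hx
    obtain ⟨α, -, rfl⟩ := xl_mem.1 (h1 hx)
    rcases hmax _ hx with h | h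
    · exact xl_lt.2 ((xl_lt.1 h).trans hmδ)
    · rw [h]
      exact xl_lt.2 hmδ
  have hsub : insert δ.toZFSet t ⊆ w1 := by
    intro x hx
    rcases ZFSet.mem_insert_iff.1 hx with rfl | hx
    · exact hδw
    · exact h1 hx
  refine ⟨ZFSet.mem_sep.2 ⟨ZFSet.mem_powerset.2 hsub, hsub, ?_, ?_⟩, hlt⟩
  · refine ⟨δ.toZFSet, ZFSet.mem_insert _ _, fun x hx => ?_⟩
    rcases ZFSet.mem_insert_iff.1 hx with rfl | hx
    · exact Or.inr rfl
    · exact Or.inl (hlt x hx)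
  · intro α hα hα0 hlim
    obtain ⟨a, ha, rfl⟩ := xl_mem.1 hα
    rcases lt_trichotomy a δ with h | h | h
    · refine ZFSet.mem_insert_of_mem _ (h3 _ hα hα0 fun β hβ => ?_)
      obtain ⟨γ, hγ, h4, h5⟩ := hlim β hβ
      rcases ZFSet.mem_insert_iff.1 hγ with rfl | hγ
      · exact absurd ((xl_lt.1 h5).trans h) (lt_irrefl _)
      · exact ⟨γ, hγ, h4, h5⟩
    · rw [h]
      exact ZFSet.mem_insert _ _
    · exfalso
      obtain ⟨γ, hγ, h4, h5⟩ := hlim δ.toZFSet (xl_lt.2 h)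
      rcases ZFSet.mem_insert_iff.1 hγ with rfl | hγ
      · exact absurd (xl_lt.1 h4) (lt_irrefl _)
      · obtain ⟨g, -, rfl⟩ := xl_mem.1 (h1 hγ)
        exact absurd ((xl_lt.1 h4).trans (xl_lt.1 (hlt _ hγ))) (lt_irrefl _)

theorem xl (hX3 : T_X3) : T_XL := by
  intro C hC r z hz β hβ
  unfold QC at hz ⊢
  rw [ZFSet.mem_sep] at hz
  obtain ⟨hzp, hz0, hzt⟩ := hz
  obtain ⟨a, ha, t, ht, rfl⟩ := ZFSet.mem_prod.1 hzp
  rw [fst_pair] at hz0 hzt
  rw [snd_pair] at hzt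
  have hclb : Clb w1 t := (ZFSet.mem_sep.1 ht).2
  obtain ⟨m, hm, hmax⟩ := hclb.2.1
  obtain ⟨μ, hμ, rfl⟩ := xl_mem.1 (hclb.1 hm)
  have hc0 : (⟨a, ha⟩ : El C.B) ≠ ⊥ := by
    intro h
    apply hz0
    have h1 : (⟨a, ha⟩ : El C.B).val = (⊥ : El C.B).val := by rw [h]
    rw [El.bot_val] at h1
    exact h1
  obtain ⟨δ, hδ1, hδ2, hδ3⟩ := hX3 C hC r ⟨a, ha⟩ hc0 (max μ β) (max_lt hμ hβ)
  have hmδ : μ < δ := (le_max_left _ _).trans_lt hδ1
  have hβδ : β < δ := (le_max_right _ _).trans_lt hδ1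
  obtain ⟨hT, hlt⟩ := xl_tcl hclb hm hmax hmδ hδ2
  set b1 : El C.B := ⟨a, ha⟩ ⊓ gval C r δ with hb1
  have hle : b1 ≤ (⟨a, ha⟩ : El C.B) := inf_le_left
  have hb1a : b1.val ⊆ a := El.le_iff.1 hle
  have hat : (⟨a, ha⟩ : El C.B) ≤ tau C r t := El.le_iff.2 hzt
  refine ⟨ZFSet.pair b1.val (insert δ.toZFSet t), ?_, ?_, ?_⟩
  · rw [ZFSet.mem_sep, fst_pair, snd_pair]
    refine ⟨ZFSet.pair_mem_prod.2 ⟨b1.mem, hT⟩, ?_, ?_⟩
    · intro h
      apply hδ3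
      apply El.ext
      rw [El.bot_val]
      exact h
    · refine El.le_iff.1 ?_
      unfold tau
      refine le_iInf fun x => ?_
      rcases ZFSet.mem_insert_iff.1 x.2 with h | h
      · rw [Ordinal.toZFSet_injective h]
        exact inf_le_right
      · exact (hle.trans hat).trans
          (iInf_le (fun δ : {δ : Ordinal.{0} // δ.toZFSet ∈ t} => gval C r δ.1) ⟨x.1, h⟩)
  · refine ⟨?_, ?_⟩
    · rw [fst_pair, fst_pair]
      exact hb1a
    · rw [snd_pair, snd_pair]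
      refine ⟨fun x hx => ZFSet.mem_insert_of_mem _ hx, fun x hx hm0 => ?_⟩
      rcases ZFSet.mem_insert_iff.1 hx with rfl | hx
      · exfalso
        obtain ⟨m0, hm0, h5⟩ := hm0
        obtain ⟨g, -, rfl⟩ := xl_mem.1 (hclb.1 hm0)
        have h6 := xl_lt.1 (hlt _ hm0)
        rcases h5 with h5 | h5
        · exact absurd ((xl_lt.1 h5).trans h6) (lt_irrefl _)
        · have h7 := Ordinal.toZFSet_injective h5
          rw [h7] at h6
          exact absurd h6 (lt_irrefl _)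
      · exact hx
  · rw [snd_pair]
    exact ⟨δ.toZFSet, ZFSet.mem_insert _ _, xl_lt.2 hβδ⟩

end SF.H45
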