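import Pool.Agent.H1.SF.LRI
import Pool.Agent.H11.SF.JM
import Pool.Agent.H11.SF.UA
import Pool.Agent.H11.SF.VH
import Pool.Agent.H11.SF.VI
import Pool.Agent.H11.SF.ZN
import Pool.Agent.H12.SF.FK
import Pool.Agent.H12.SF.FL
import Pool.Agent.H12.SF.KD
import Pool.Agent.H12.SF.QD
import Pool.Agent.H12.SF.WA
import Pool.Agent.H13.SF.KVC
import Pool.Agent.H14.SF.KV
import Pool.Agent.H14.SF.KZA
import Pool.Agent.H14.SF.LEZ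
import Pool.Agent.H14.SF.LHE
import Pool.Agent.H14.SF.TSB
import Pool.Agent.H14.SF.TSC
import Pool.Agent.H15.SF.KJ
import Pool.Agent.H16.SF.LED
import Pool.Agent.H16.SF.YC
import Pool.Agent.H17.SF.LDC
import Pool.Agent.H17.SF.LEQ
import Pool.Agent.H17.SF.LNG
import Pool.Agent.H17.SF.W2
import Pool.Agent.H17.SF.WF
import Pool.Agent.H17.SF.WM
import Pool.Agent.H18.SF.AK
import Pool.Agent.H19.SF.WD
import Pool.Agent.H19.SF.WG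
import Pool.Agent.H19.SF.WL
import Pool.Agent.H20.SF.FM
import Pool.Agent.H20.SF.UO
import Pool.Agent.H20.SF.VG
import Pool.Agent.H24.SF.KB
import Pool.Agent.H24.SF.RB
import Pool.Agent.H3.SF.FG
import Pool.Agent.H3.SF.FI
import Pool.Agent.H3.SF.KPR
import Pool.Agent.H3.SF.KVA
import Pool.Agent.H3.SF.QA
import Pool.Agent.H3.SF.TSA
import Pool.Agent.H30.SF.AM
import Pool.Agent.H30.SF.BJ
import Pool.Agent.H30.SF.G5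
import Pool.Agent.H30.SF.WJ
import Pool.Agent.H30.SF.WK
import Pool.Agent.H30.SF.XC
import Pool.Agent.H30.SF.XH
import Pool.Agent.H31.SF.FH
import Pool.Agent.H31.SF.TR
import Pool.Agent.H31.SF.UD
import Pool.Agent.H31.SF.XF
import Pool.Agent.H32.SF.KG
import Pool.Agent.H32.SF.KI
import Pool.Agent.H33.SF.FJ
import Pool.Agent.H33.SF.FO
import Pool.Agent.H33.SF.FS
import Pool.Agent.H33.SF.KGA
import Pool.Agent.H33.SF.KRO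
import Pool.Agent.H33.SF.KXB
import Pool.Agent.H33.SF.LZF
import Pool.Agent.H33.SF.TU
import Pool.Agent.H33.SF.UKA
import Pool.Agent.H33.SF.UZ
import Pool.Agent.H35.SF.G2
import Pool.Agent.H35.SF.G4
import Pool.Agent.H35.SF.KUL
import Pool.Agent.H35.SF.KVB
import Pool.Agent.H36.SF.LCD
import Pool.Agent.H36.SF.LFN
import Pool.Agent.H36.SF.LFU
import Pool.Agent.H36.SF.LNP
import Pool.Agent.H4.SF.FD
import Pool.Agent.H4.SF.FF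
import Pool.Agent.H4.SF.LCE
import Pool.Agent.H4.SF.VA
import Pool.Agent.H4.SF.VB
import Pool.Agent.H4.SF.VC
import Pool.Agent.H4.SF.YA
import Pool.Agent.H4.SF.YD
import Pool.Agent.H4.SF.YE
import Pool.Agent.H42.SF.KE
import Pool.Agent.H42.SF.KF
import Pool.Agent.H42.SF.LCA
import Pool.Agent.H42.SF.LCH
import Pool.Agent.H45.SF.G1
import Pool.Agent.H45.SF.G3
import Pool.Agent.H45.SF.X4
import Pool.Agent.H45.SF.XL
import Pool.Agent.H45.SF.YB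
import Pool.Agent.H47.SF.GL
import Pool.Agent.H47.SF.TF
import Pool.Agent.H48.SF.XG
import Pool.Agent.H48.SF.XS
import Pool.Agent.H51.SF.UL
import Pool.Agent.H54.SF.AU
import Pool.Agent.H54.SF.QB
import Pool.Agent.H54.SF.WI
import Pool.Agent.H54.SF.X2
import Pool.Agent.H54.SF.XN
import Pool.Agent.H56.SF.KVD
import Pool.Agent.H56.SF.MB
import Pool.Agent.H56.SF.MP
import Pool.Agent.H56.SF.X3
import Pool.Agent.H56.SF.XB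
import Pool.Agent.H58.SF.LCO
import Pool.Agent.H58.SF.LLS
import Pool.Agent.H58.SF.RC
import Pool.Agent.H58.SF.RD
import Pool.Agent.H58.SF.RE
import Pool.Agent.H58.SF.VM
import Pool.Agent.H59.SF.BR
import Pool.Agent.H59.SF.UC
import Pool.Agent.H59.SF.UKB
import Pool.Agent.H59.SF.VF
import Pool.Agent.H60.SF.CLC
import Pool.Agent.H60.SF.KZB
import Pool.Agent.H62.SF.FA
import Pool.Agent.H62.SF.FB
import Pool.Agent.H62.SF.FC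
import Pool.Agent.H62.SF.VJ
import Pool.Agent.H62.SF.VK
import Pool.Agent.H65.SF.KA
import Pool.Agent.H65.SF.LEO
import Pool.Agent.H65.SF.LEP
import Pool.Agent.H65.SF.WB
import Pool.Agent.H65.SF.WC
import Pool.Agent.H65.SF.XA
import Pool.Agent.H65.SF.XE
import Pool.Agent.H65.SF.XM
import Pool.Agent.H66.SF.AH
import Pool.Agent.H66.SF.KO
import Pool.Agent.H66.SF.LLE
import Pool.Agent.H66.SF.NR
import Pool.Agent.H66.SF.WE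
import Pool.Agent.H67.SF.LCI
import Pool.Agent.H67.SF.LMI
import Pool.Agent.H67.SF.LVV
import Pool.Agent.H67.SF.QE
import Pool.Agent.H67.SF.QF
import Pool.Agent.H67.SF.QH
import Pool.Agent.H68.SF.KC
import Pool.Agent.H68.SF.LDX
import Pool.Agent.H68.SF.LEN
import Pool.Agent.H68.SF.LEX
import Pool.Agent.H68.SF.LIN
import Pool.Agent.H68.SF.LRS
import Pool.Agent.H68.SF.PB
import Pool.Agent.H68.SF.QC
import Pool.Agent.H68.SF.VL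
import Pool.Agent.H68.SF.XD
import Pool.Agent.H68.SF.YG
import Pool.Agent.H69.SF.AP
import Pool.Agent.H69.SF.FQ
import Pool.Agent.H69.SF.KH
import Pool.Agent.H69.SF.UB
import Pool.Agent.H69.SF.UV
import Pool.Agent.H69.SF.VD
import Pool.Agent.H74.SF.UE
import Pool.Agent.H75.SF.KM
import Pool.Agent.H75.SF.KN
import Pool.Agent.H75.SF.KQ
import Pool.Agent.H75.SF.KR
import Pool.Agent.H75.SF.KS
import Pool.Agent.H76.SF.US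
import Pool.Agent.H77.SF.KL
import Pool.Agent.H77.SF.KXG
import Pool.Agent.H77.SF.RA
import Pool.Agent.H78.SF.LPR
import Pool.Agent.H78.SF.WZ2
import Pool.Agent.H81.SF.AD
import Pool.Agent.H81.SF.QI
import Pool.Agent.H84.SF.AF
import Pool.Agent.H84.SF.LAR
import Pool.Agent.H84.SF.LBS
import Pool.Agent.H84.SF.UK
import Pool.Agent.H84.SF.WH
import Pool.Agent.H84.SF.YF
import Pool.Agent.H87.SF.LI
import Pool.Agent.H87.SF.PR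
import Pool.Agent.H87.SF.RS
import Pool.Agent.H89.SF.FE
import Pool.Agent.H89.SF.KK
import Pool.Agent.H89.SF.VE
import Pool.Agent.H89.SF.YH
import Pool.Agent.H91.SF.X1
import Pool.Agent.H91.SF.XK

/-! Assembly of all modules of the proof (generated). -/

namespace SF.Asm

theorem a_KD : SF.T_KD :=
  SF.H12.kd

theorem a_LED : SF.T_LED :=
  SF.pf_LED

theorem a_WJ : SF.T_WJ :=
  SF.H30.wj

theorem a_FN : SF.T_FN :=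
  SF.H20.fn

theorem a_FE : SF.T_FE :=
  SF.H89.fe

theorem a_XA : SF.T_XA :=
  SF.H65.xa

theorem a_WB : SF.T_WB :=
  SF.H65.wb

theorem a_XC : SF.T_XC :=
  SF.H30.xc

theorem a_WA : SF.T_WA :=
  SF.H12.wa

theorem a_MP : SF.T_MP :=
  SF.mp

theorem a_RS : SF.T_RS :=
  SF.pf_RS

theorem a_KF : SF.T_KF :=
  SF.H42.kf a_KD

theorem a_LCA : SF.T_LCA :=
  SF.pf_LCA

theorem a_LVV : SF.T_LVV :=
  SF.pf_LVV

theorem a_WC : SF.T_WC :=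
  SF.H65.wc

theorem a_FS : SF.T_FS :=
  SF.H33.fs

theorem a_FH : SF.T_FH :=
  SF.H31.fh

theorem a_XE : SF.T_XE :=
  SF.H65.xe

theorem a_XB : SF.T_XB :=
  SF.H56.xb

theorem a_UV : SF.T_UV :=
  SF.H69.uv

theorem a_QI : SF.T_QI :=
  SF.H81.qi

theorem a_KZA : SF.T_KZA :=
  SF.H14.kza

theorem a_LEP : SF.T_LEP :=
  SF.pf_LEP

theorem a_BJ : SF.T_BJ :=
  SF.H30.bj

theorem a_KJ : SF.T_KJ :=
  SF.H15.kj

theorem a_LET : SF.T_LET :=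
  SF.pf_LET

theorem a_LI : SF.T_LI :=
  SF.pf_LI a_MP

theorem a_ZN : SF.T_ZN :=
  SF.H11.zn

theorem a_XH : SF.T_XH :=
  SF.H30.xh

theorem a_LCI : SF.T_LCI :=
  SF.pf_LCI

theorem a_WK : SF.T_WK :=
  SF.H30.wk

theorem a_KC : SF.T_KC :=
  SF.H68.kc

theorem a_KG : SF.T_KG :=
  SF.H32.kg a_KD

theorem a_XG : SF.T_XG :=
  SF.H48.xg

theorem a_MB : SF.T_MB :=
  SF.mb

theorem a_KI : SF.T_KI :=
  SF.H32.ki a_KC

theorem a_KV : SF.T_KV :=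
  SF.H14.kv

theorem a_LDC : SF.T_LDC :=
  SF.pf_LDC

theorem a_KA : SF.T_KA :=
  SF.H65.ka

theorem a_LLS : SF.T_LLS :=
  SF.H58.lls

theorem a_QH : SF.T_QH :=
  SF.H67.qh

theorem a_KE : SF.T_KE :=
  SF.H42.ke a_KD

theorem a_RKT : SF.T_RKT :=
  SF.pf_RKT

theorem a_WG : SF.T_WG :=
  SF.H19.wg

theorem a_KK : SF.T_KK :=
  SF.H89.kk a_KD

theorem a_KQ : SF.T_KQ :=
  SF.H75.kq

theorem a_LCO : SF.T_LCO :=
  SF.H58.lco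

theorem a_KH : SF.T_KH :=
  SF.H69.kh a_LCO

theorem a_PR : SF.T_PR :=
  SF.pf_PR

theorem a_FA : SF.T_FA :=
  SF.H62.fa

theorem a_LRI : SF.T_LRI :=
  SF.pf_LRI

theorem a_FL : SF.T_FL :=
  SF.H12.fl

theorem a_LCH : SF.T_LCH :=
  SF.pf_LCH a_LCA

theorem a_FM : SF.T_FM :=
  SF.H20.fm

theorem a_LHT : SF.T_LHT :=
  SF.pf_LHT

theorem a_KRO : SF.T_KRO :=
  SF.H33.kro a_KQ

theorem a_KVA : SF.T_KVA :=
  SF.H3.kva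

theorem a_UKB : SF.T_UKB :=
  SF.H59.ukb a_ZN

theorem a_LEZ : SF.T_LEZ :=
  SF.pf_LEZ a_LED

theorem a_TSC : SF.T_TSC :=
  SF.H14.tsc

theorem a_VC : SF.T_VC :=
  SF.H4.vc

theorem a_WD : SF.T_WD :=
  SF.H19.wd

theorem a_VB : SF.T_VB :=
  SF.H4.vb

theorem a_LEO : SF.T_LEO :=
  SF.pf_LEO

theorem a_QA : SF.T_QA :=
  SF.H3.QA.qa a_RS

theorem a_LCD : SF.T_LCD :=
  SF.pf_LCD a_RKT a_LDC

theorem a_LHE : SF.T_LHE :=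
  SF.pf_LHE a_LHT

theorem a_KL : SF.T_KL :=
  SF.H77.kl a_KA a_KC a_KD a_KE a_KF a_KG a_KH a_KI a_KJ a_KK

theorem a_FB : SF.T_FB :=
  SF.H62.fb a_FA

theorem a_KUL : SF.T_KUL :=
  SF.H35.kul a_LLS a_LCO a_LEZ a_LHE a_LED a_LET

theorem a_WE : SF.T_WE :=
  SF.H66.we a_WA a_WB a_WC

theorem a_KB : SF.T_KB :=
  SF.H24.kb a_WB a_WC

theorem a_TR : SF.T_TR :=
  SF.H31.tr a_ZN

theorem a_YE : SF.T_YE :=
  SF.H4.ye a_WG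

theorem a_FD : SF.T_FD :=
  SF.H4.fd a_FA

theorem a_LAR : SF.T_LAR :=
  SF.pf_LAR a_RKT

theorem a_NR : SF.T_NR :=
  SF.H66.nr a_MB a_ZN a_TR

theorem a_VD : SF.T_VD :=
  SF.H69.vd a_FL

theorem a_LRS : SF.T_LRS :=
  SF.pf_LRS a_LHT a_LED

theorem a_BR : SF.T_BR :=
  SF.H59.br a_MB

theorem a_LPR : SF.T_LPR :=
  SF.H78.lpr a_LHT a_LHE a_LED a_LEZ

theorem a_LIN : SF.T_LIN :=
  SF.pf_LIN a_LHT

theorem a_LEQ : SF.T_LEQ :=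
  SF.pf_LEQ a_LAR

theorem a_TF : SF.T_TF :=
  SF.H47.tf a_ZN a_TR

theorem a_KM : SF.T_KM :=
  SF.H75.km a_WB a_WC a_KB

theorem a_AD : SF.T_AD :=
  SF.H81.ad a_TR

theorem a_FF : SF.T_FF :=
  SF.H4.ff a_FA a_FB a_FE

theorem a_KVC : SF.T_KVC :=
  SF.H13.kvc a_KM a_LED

theorem a_YD : SF.T_YD :=
  SF.H4.yd a_WG

theorem a_LZF : SF.T_LZF :=
  SF.H33.lzf a_LCA a_LCH

theorem a_KPR : SF.T_KPR :=
  SF.H3.kpr a_KUL a_KM a_KV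

theorem a_GL : SF.T_GL :=
  SF.H47.gl a_BR

theorem a_LBS : SF.T_LBS :=
  SF.pf_LBS a_LCA a_LZF a_LLS a_LCO a_LED a_LEZ a_LHT

theorem a_FC : SF.T_FC :=
  SF.H62.fc a_FB

theorem a_AM : SF.T_AM :=
  SF.H30.am a_TR

theorem a_QB : SF.T_QB :=
  SF.H54.qb a_QA

theorem a_LEX : SF.T_LEX :=
  SF.pf_LEX a_LVV a_LCD a_LDC a_LCI a_LZF

theorem a_G5 : SF.T_G5 :=
  SF.H30.g5 a_MB a_BR a_BJ

theorem a_KVD : SF.T_KVD :=
  SF.H56.kvd a_KVC a_KM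

theorem a_AK : SF.T_AK :=
  Pool.Agent.H18.SF.pf_AK a_TF

theorem a_LLE : SF.T_LLE :=
  SF.pf_LLE a_LEP a_LEQ

theorem a_FQ : SF.T_FQ :=
  SF.H69.fq a_FA a_FB a_FF a_FH

theorem a_LCE : SF.T_LCE :=
  SF.H4.lce a_LEP a_LEQ

theorem a_LDX : SF.T_LDX :=
  SF.pf_LDX a_LEP a_LEQ a_LLE a_LCE

theorem a_AU : SF.T_AU :=
  SF.H54.au a_AM

theorem a_KN : SF.T_KN :=
  SF.H75.kn a_WA a_KM

theorem a_KO : SF.T_KO :=
  SF.H66.ko a_WA a_KM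

theorem a_LMI : SF.T_LMI :=
  SF.pf_LMI a_LCD a_LDC a_LCI a_LIN a_LHT a_RKT

theorem a_KVB : SF.T_KVB :=
  SF.H35.kvb a_KVA a_LLS a_LCO a_LPR a_MB

theorem a_AH : SF.T_AH :=
  SF.H66.ah a_TR a_TF a_AM a_AK

theorem a_QC : SF.T_QC :=
  SF.H68.qc a_QB a_MB

theorem a_AP : SF.T_AP :=
  SF.H69.ap a_TR a_TF

theorem a_YF : SF.T_YF :=
  SF.H84.yf a_YE a_YD a_MB a_TR

theorem a_WF : SF.T_WF :=
  SF.H17.wf a_FC

theorem a_FG : SF.T_FG :=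
  SF.H3.fg a_FC a_FD a_FE a_FF

theorem a_WH : SF.T_WH :=
  SF.H84.wh a_FE a_WF a_WG

theorem a_LEN : SF.T_LEN :=
  SF.pf_LEN a_LDX a_LEP a_LEQ a_LHT

theorem a_KGA : SF.T_KGA :=
  SF.H33.kga a_KO a_KV a_UV a_YD

theorem a_QD : SF.T_QD :=
  SF.H12.qd a_QA a_QC

theorem a_TU : SF.T_TU :=
  SF.H33.tu a_AP

theorem a_FI : SF.T_FI :=
  SF.H3.FI.fi a_FC a_FG a_FH

theorem a_WI : SF.T_WI :=
  SF.H54.wi a_FC a_FD a_FG a_WF a_WG a_WH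

theorem a_KR : SF.T_KR :=
  SF.H75.kr a_WF a_WG

theorem a_AF : SF.T_AF :=
  SF.H84.af a_TR a_AM a_AP

theorem a_QE : SF.T_QE :=
  SF.H67.qe a_FH a_WF a_WG a_WH a_WI

theorem a_G4 : SF.T_G4 :=
  SF.H35.g4 a_MB a_MP a_AM a_AP a_AF a_AD a_AK a_ZN a_NR a_GL

theorem a_YG : SF.T_YG :=
  SF.H68.yg a_G5 a_AP a_AM a_AF a_TR a_MB a_ZN

theorem a_TSB : SF.T_TSB :=
  SF.H14.TSB.tsb a_FH a_QA a_WF a_WH a_WI

theorem a_FJ : SF.T_FJ :=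
  SF.H33.fj a_FI a_FH

theorem a_FO : SF.T_FO :=
  SF.H33.fo a_FC a_FG a_FH

theorem a_WM : SF.T_WM :=
  SF.H17.wm a_FE a_FH a_FI a_WF a_WG a_WH a_WI

theorem a_YA : SF.T_YA :=
  SF.H4.ya a_WF

theorem a_G1 : SF.T_G1 :=
  SF.H45.g1 a_MB a_ZN a_AM a_AP a_AF a_AU a_NR a_TU

theorem a_XS : SF.T_XS :=
  SF.H48.xs a_XA a_XB a_XH a_AM a_AP a_AF a_AH a_TF a_AD

theorem a_G3 : SF.T_G3 :=
  SF.H45.g3 a_MB a_ZN a_TR a_AM a_AP a_AF a_AD a_BR a_BJ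

theorem a_VE : SF.T_VE :=
  SF.H89.ve a_LED a_WF a_QH a_FS

theorem a_WL : SF.T_WL :=
  SF.H19.wl a_FH a_FI a_FM a_WF a_WG a_WH a_WI

theorem a_G2 : SF.T_G2 :=
  SF.H35.g2 a_MB a_MP a_AM a_AP a_AF a_BR

theorem a_DN : SF.T_DN :=
  SF.H20.dn a_MB a_G2

theorem a_LFN : SF.T_LFN :=
  SF.pf_LFN a_LCA a_LZF a_LEN a_LEO a_LBS

theorem a_YB : SF.T_YB :=
  SF.H45.yb a_YA a_WF

theorem a_TSA : SF.T_TSA :=
  SF.H3.TSA.tsa a_FI a_WG a_WH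

theorem a_VL : SF.T_VL :=
  SF.H68.vl a_FM a_FG a_FH a_FI a_FQ a_QA a_QH a_WG

theorem a_VA : SF.T_VA :=
  SF.H4.va a_WF a_WG a_WH a_FI

theorem a_PB : SF.T_PB :=
  Pool.Agent.H68.SF.pf_PB a_MB a_MP a_G2

theorem a_FK : SF.T_FK :=
  SF.H12.fk a_FB a_FF a_FJ

theorem a_QF : SF.T_QF :=
  SF.H67.qf a_FH a_FI a_WF a_WG a_WH a_WI

theorem a_YH : SF.T_YH :=
  SF.H89.yh a_YG a_YF a_G5 a_MB

theorem a_LNG : SF.T_LNG :=
  SF.pf_LNG a_LMI a_LHT a_LHE a_FI a_FJ a_FL a_FN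

theorem a_KS : SF.T_KS :=
  SF.H75.ks a_WF a_WG a_KR a_KQ

theorem a_JM : SF.T_JM :=
  SF.H11.jm a_MB a_G3

theorem a_LFU : SF.T_LFU :=
  SF.pf_LFU a_LRI a_LHT a_LIN a_LHE a_FC a_FG a_FI a_FJ a_FL a_FN

theorem a_VF : SF.T_VF :=
  SF.H59.vf a_VE a_TSB a_TSC a_QA a_QH

theorem a_VH : SF.T_VH :=
  SF.H11.vh a_VE a_VF a_LNG a_LPR a_LFU a_LHE a_FI a_FJ a_WF a_WG

theorem a_VG : SF.T_VG :=
  SF.H20.vg a_VE a_VF a_FO a_FI a_FJ a_FL a_LHE a_LET a_WF a_WG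

theorem a_UA : SF.T_UA :=
  SF.H11.ua a_G1 a_G2 a_MB

theorem a_LNP : SF.T_LNP :=
  SF.pf_LNP a_LEX a_LFN a_LLS a_LCO a_LED a_LET a_LEZ a_LHT

theorem a_YC : SF.T_YC :=
  SF.H16.yc a_YA a_YB

theorem a_VI : SF.T_VI :=
  SF.H11.vi a_VE a_VF a_VG a_VB a_LED a_FI a_WF a_WG

theorem a_UE : SF.T_UE :=
  SF.pf_UE a_UA

theorem a_KXB : SF.T_KXB :=
  SF.H33.kxb a_KN a_KS a_KV a_UV

theorem a_US : SF.T_US :=
  SF.USx.us a_UA a_UV a_UE a_PR a_PB a_BJ a_BR a_JM a_G1 a_G2 a_MB a_TU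

theorem a_XF : SF.T_XF :=
  SF.H31.xf a_LNP a_XA a_XH a_XE a_XG a_XS a_NR a_AM a_AP a_AH

theorem a_UO : SF.T_UO :=
  SF.H20.uo a_UA a_MB a_G1 a_G2

theorem a_UD : SF.T_UD :=
  SF.H31.ud a_DN a_UA a_UV a_BR a_AU a_G1 a_MB

theorem a_VJ : SF.T_VJ :=
  SF.H62.vj a_VG a_VH a_VI a_FM a_FI a_VE a_WF a_WG

theorem a_UL : SF.T_UL :=
  SF.ul a_UA a_UV a_MB a_G1 a_PB

theorem a_UP : SF.T_UP :=
  SF.H20.up a_UA

theorem a_VK : SF.T_VK :=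
  SF.H62.vk a_VJ a_VF a_VI a_VB a_VG a_VE a_TSA a_FN a_FI a_LRS a_LET a_WF a_WG a_QA a_QH

theorem a_KXG : SF.T_KXG :=
  SF.H77.kxg a_KM a_YC a_YF a_KV a_KPR a_KVB a_KVC a_KVD a_KGA

theorem a_X1 : SF.T_X1 :=
  SF.H91.x1 a_XF a_AP a_AU

theorem a_UB : SF.T_UB :=
  SF.H69.ub a_RS a_UA a_UO a_UP a_UV a_MB

theorem a_UC : SF.T_UC :=
  SF.H59.uc a_UA a_UO a_UP a_UV

theorem a_VM : SF.T_VM :=
  SF.H58.vm a_VA a_VK a_VL a_LPR a_LED a_WH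

theorem a_X2 : SF.T_X2 :=
  SF.H54.x2 a_X1 a_AH a_AK a_AP a_AM a_TF a_AD

theorem a_X3 : SF.T_X3 :=
  SF.H56.x3 a_X1 a_AH a_AF a_AM a_AP a_AU a_TR a_TF a_AD

theorem a_CLc : SF.T_CLc :=
  SF.H60.clc a_YH a_YC a_WA a_WC a_WE a_WF a_WG a_QA a_QH a_VC a_VD a_VM a_FE a_FI a_FK a_FL a_FS

theorem a_KZB : SF.T_KZB :=
  SF.H60.kzb a_KRO a_KO a_KN a_KS a_KV a_KM a_UC a_UO a_UV a_MB

theorem a_XL : SF.T_XL :=
  SF.H45.xl a_X3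

theorem a_UKA : SF.T_UKA :=
  SF.H33.uka a_TR a_AM a_AP a_ZN a_UC a_UP a_UA

theorem a_XM : SF.T_XM :=
  SF.H65.xm a_XB a_XL a_AM a_AP a_AF a_AU a_AH a_TR a_BR a_ZN a_MB a_MP a_RS

theorem a_RA : SF.T_RA :=
  SF.H77.ra a_KL a_KM a_KN a_KO a_KV a_KZA a_KZB a_KXB a_KXG a_UB a_MP

theorem a_XK : SF.T_XK :=
  SF.H91.xk a_RS a_X3

theorem a_XN : SF.T_XN :=
  SF.H54.xn a_X2 a_XB

theorem a_X4 : SF.T_X4 :=
  SF.H45.x4 a_XK a_XL a_XM a_RS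

theorem a_XD : SF.T_XD :=
  SF.H68.xd a_X4 a_MB

theorem a_UK : SF.T_UK :=
  SF.H84.uk a_UKA a_UKB a_TF a_AU a_AM a_AP a_NR a_BR a_UA a_UP a_UV a_ZN

theorem a_UZ : SF.T_UZ :=
  SF.H33.uz a_UK a_UD a_US a_UL a_UC a_UV a_LI a_G4 a_GL a_TU a_BR a_MB a_MP

theorem a_W2 : SF.T_W2 :=
  SF.H17.w2 a_WA a_WC a_WE a_WF a_WG a_WJ a_WK a_WL a_WM a_XN a_XC a_XD

theorem a_RB : SF.T_RB :=
  Pool.Agent.H24.SF.pf_RB a_UZ a_UC a_UV a_UO a_MB a_G1 a_G2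

theorem a_WZ2 : SF.T_WZ2 :=
  SF.H78.wz2 a_WD a_WE a_WG a_WF a_WA a_FM a_FK a_W2 a_LEZ

theorem a_RC : SF.T_RC :=
  SF.H58.rc a_RB a_UC a_UV a_MB a_MP

theorem a_RD : SF.T_RD :=
  SF.H58.rd a_RC a_DN a_UC a_MB a_G1

theorem a_RE : SF.T_RE :=
  SF.H58.re a_RD a_UB a_UC a_UO a_UZ a_MB

end SF.Asm
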