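import Pool.Agent.H9.SF.WDefs
import Pool.Agent.H9.SF.QDefs
import Pool.Agent.H9.SF.Bas

/-!
# A weaker form of subcompleteness

`SubCore` is the weakest reading of subcompleteness: only models `N = L_τ[A]` with `A ∈ N` are
considered, `A` is one of the parameters which are fixed by the embeddings (so the embeddings
preserve `A` as a predicate), and there is no condition on the hulls. Every reading of the definition
of subcompleteness implies it, so its forcing axiom is the strongest one.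
-/

set_option linter.unusedVariables false

open Ordinal Cardinal Order Set
open scoped ZFSet

namespace SF

/-- the weakest reading of subcompleteness -/
def SubCore (W : V → Prop) (c r : V) : Prop :=
  ∃ θ₀ : Ordinal.{0}, W θ₀.toZFSet ∧ ∀ θ : Ordinal.{0}, θ₀ ≤ θ → IsCard W θ →
    InH W θ (ZFSet.pair c r) →
    ∀ (τ : Ordinal.{0}) (A N : V), θ < τ → W τ.toZFSet → W A → N = LA A τ → A ∈ N →
      (∀ x, InH W θ x → x ∈ N) → ZFCm (· ∈ N) →
    ∀ (N' f θ' c' r' s' s A' : V), W N' → W f → Ctbl W N' → Full W N' → IsElem N' N f →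
      θ' ∈ N' → ZFSet.pair c' r' ∈ N' → s' ∈ N' → A' ∈ N' →
      app f θ' = θ.toZFSet → app f (ZFSet.pair c' r') = ZFSet.pair c r → app f s' = s →
      app f A' = A →
    ∀ G', W G' → Gen (· ∈ N') c' r' G' →
    ∃ p ∈ c, ∀ G, Gen W c r G → p ∈ G →
      ∃ f', Ext W G f' ∧ IsElem N' N f' ∧
        app f' θ' = θ.toZFSet ∧ app f' (ZFSet.pair c' r') = ZFSet.pair c r ∧ app f' s' = s ∧
        app f' A' = A ∧ ∀ x ∈ G', app f' x ∈ G

/-- the forcing axiom for all forcing notions which are subcomplete in the weakest reading -/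
def SCFAc (W : V → Prop) : Prop :=
  ∀ c r, W c → W r → IsPo c r → SubCore W c r →
    ∀ (o : Ordinal.{0}) (D : V), IsOmega1 W o → W D →
      (∀ i < o, IsDense c r (app D i.toZFSet)) →
      ∃ F, W F ∧ IsFil c r F ∧ ∀ i < o, ∃ p ∈ F, p ∈ app D i.toZFSet

/-- elementary maps preserve pairs -/
theorem IsElem.app_pair {N' N f : V} (h : IsElem N' N f) (h1 : ZFm (· ∈ N')) (h2 : ZFm (· ∈ N))
    {x y : V} (hx : x ∈ N') (hy : y ∈ N') :
    app f (ZFSet.pair x y) = ZFSet.pair (app f x) (app f y) := by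
  have ht : Dfb ZFm (fun _ v => v 0 = ZFSet.pair (v 1) (v 2)) :=
    Dfb.eq (Tm.var 0) ((Tm.var 1).pair (Tm.var 2))
  obtain ⟨φ, hφ⟩ := ht
  have hp : ZFSet.pair x y ∈ N' := h1.mpair hx hy
  let v : ℕ → V := fun i => if i = 0 then ZFSet.pair x y else if i = 1 then x else y
  have hv : ∀ i, v i ∈ N' := by
    intro i
    show (if i = 0 then _ else if i = 1 then _ else _) ∈ N'
    split
    · exact hp
    · split
      · exact hx
      · exact hy
  have hv2 : ∀ i, app f (v i) ∈ N := fun i => app_mem h.func (hv i)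
  have h3 := (hφ (· ∈ N') h1 v hv).2 rfl
  have h4 := (h.el φ v hv).1 h3
  exact (hφ (· ∈ N) h2 (fun i => app f (v i)) hv2).1 h4

theorem Subcomplete.core {W : V → Prop} {c r : V} (h : Subcomplete W c r)
    (hN' : ∀ N' N f : V, IsElem N' N f → N'.IsTransitive → N'.Nonempty → ZFCm (· ∈ N) →
      ZFCm (· ∈ N')) : SubCore W c r := by
  obtain ⟨θ₀, hθ₀, h⟩ := h
  refine ⟨θ₀, hθ₀, fun θ hθ hc hH τ A N hτ hWτ hWA hN hAN hHN hz N' f θ' c' r' s' s A' hWN' hWf
    hct hfu hel hθ' hcr hs' hA' e1 e2 e3 e4 G' hG' hgen => ?_⟩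
  have hne : N'.Nonempty := ⟨_, hθ'⟩
  have hz' : ZFCm (· ∈ N') := hN' N' N f hel hfu.1 hne hz
  have hp : ZFSet.pair s' A' ∈ N' := hz'.toZFm.mpair hs' hA'
  obtain ⟨p, hp1, hp2⟩ := h θ hθ hc hH τ A N hτ hWτ hWA hN hHN hz N' f θ' c' r'
    (ZFSet.pair s' A') (ZFSet.pair s A) hWN' hWf hct hfu hel hθ' hcr hp e1 e2
    (by rw [hel.app_pair hz'.toZFm hz.toZFm hs' hA', e3, e4]) G' hG' hgen
  refine ⟨p, hp1, fun G hG hpG => ?_⟩
  obtain ⟨f', g1, g2, g3, g4, g5, g6, -⟩ := hp2 G hG hpG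
  rw [g2.app_pair hz'.toZFm hz.toZFm hs' hA'] at g5
  obtain ⟨g7, g8⟩ := ZFSet.pair_injective g5
  exact ⟨f', g1, g2, g3, g4, g7, g8, g6⟩

/-- CLc. T_CL with the weakest reading. -/
def T_CLc : Prop := ∀ A : BA, Good (bas A) → A.B ≠ {∅} →
  ∃ (ι : Type) (_ : Countable ι) (R : ι → (ℕ → V) → Prop), (∀ n, FinSup (R n)) ∧
    ∀ (M : V) (j : V → V), Mdl M j → (∀ n, Skm M j (R n)) → ∀ B ∈ M, j B = A.B →
    ∀ G, Gen (· ∈ M) (pos B) (incl B) G →
    ∀ mu ∈ M, IsOrd mu → ∀ ρ ∈ M, BPre B mu ρ →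
    ∀ c r e : V, Ext (· ∈ M) G c → Ext (· ∈ M) G r → Ext (· ∈ M) G e → IsPo c r → Onto e mu c →
    (∀ ξ ∈ mu, ∀ η ∈ mu, app ρ (ZFSet.pair ξ η) ∈ G ↔ ZFSet.pair (app e ξ) (app e η) ∈ r) →
    SubCore (Ext (· ∈ M) G) c r → ∃ b ∈ G, GoodQ A (j mu) (j ρ) (j b)

end SF
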