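import Pool.Agent.H45.SF.Stmt

/-!
# MP_3b3fc8_lc: complete Boolean algebras, goodness. Definitions of the combinatorial part

See `scfa_H45.md`. A complete Boolean algebra is a set `B` of sets which is a complete Boolean
algebra for inclusion, with least element `∅` and with intersection as meet.
-/

open Ordinal Cardinal Order Set
open scoped ZFSet

namespace SF

/-! ## Elements of a set as a type -/

/-- the elements of `B` -/
@[ext] structure El (B : V) : Type 1 where
  val : V
  mem : val ∈ B

/-- the equivalence with the coercion of Mathlib -/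
def El.equiv (B : V) : El B ≃ (B : Set V) where
  toFun x := ⟨x.val, x.mem⟩
  invFun x := ⟨x.1, x.2⟩
  left_inv _ := rfl
  right_inv _ := rfl

instance (B : V) : Small.{0} (El B) :=
  haveI : Small.{0} (B : Set V) := ZFSet.small_coe B
  small_of_injective (El.equiv B).injective

/-! ## Complete Boolean algebras -/

/-- `B` is a complete Boolean algebra for inclusion, with least element `∅`; the meet is the
intersection. -/
class IsCBA (B : V) : Prop where
  ex : ∃ i : CompleteBooleanAlgebra (El B), ∀ x y : El B, i.le x y ↔ x.val ⊆ y.val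
  bot : ∅ ∈ B
  inter : ∀ x ∈ B, ∀ y ∈ B, x ∩ y ∈ B

noncomputable instance El.cba {B : V} [h : IsCBA B] : CompleteBooleanAlgebra (El B) :=
  h.ex.choose

theorem El.le_iff {B : V} [h : IsCBA B] {x y : El B} : x ≤ y ↔ x.val ⊆ y.val :=
  h.ex.choose_spec x y

theorem El.bot_val {B : V} [h : IsCBA B] : (⊥ : El B).val = ∅ := by
  have h1 : (⊥ : El B) ≤ ⟨∅, h.bot⟩ := bot_le
  have h2 := El.le_iff.1 h1
  exact subset_antisymm h2 (ZFSet.empty_subset _)

theorem El.inf_val {B : V} [h : IsCBA B] (x y : El B) : (x ⊓ y).val = x.val ∩ y.val := by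
  have h1 : (⟨x.val ∩ y.val, h.inter _ x.mem _ y.mem⟩ : El B) ≤ x ⊓ y := by
    refine le_inf (El.le_iff.2 ?_) (El.le_iff.2 ?_)
    · intro z hz; exact (ZFSet.mem_inter.1 hz).1
    · intro z hz; exact (ZFSet.mem_inter.1 hz).2
  have h2 := El.le_iff.1 h1
  refine subset_antisymm ?_ h2
  intro z hz
  exact ZFSet.mem_inter.2 ⟨El.le_iff.1 (inf_le_left : x ⊓ y ≤ x) hz,
    El.le_iff.1 (inf_le_right : x ⊓ y ≤ y) hz⟩

/-- `x` as an element of the algebra `B`; it is `⊥` if `x` is not an element of `B` -/
noncomputable def mkEl (B : V) [IsCBA B] (x : V) : El B :=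
  open Classical in if h : x ∈ B then ⟨x, h⟩ else ⊥

/-! ## Morphisms -/

/-- Morphisms preserve binary meets and all joins; `h ⊤` may be less than `⊤`. -/
structure Mor (B C : V) [IsCBA B] [IsCBA C] : Type 1 where
  f : El B → El C
  inf : ∀ x y, f (x ⊓ y) = f x ⊓ f y
  sup : ∀ S : Set (El B), f (sSup S) = sSup (f '' S)

namespace Mor

variable {B C D : V} [IsCBA B] [IsCBA C] [IsCBA D]

instance : CoeFun (Mor B C) fun _ => El B → El C := ⟨Mor.f⟩

/-- the identity -/
def id (B : V) [IsCBA B] : Mor B B where
  f x := x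
  inf _ _ := rfl
  sup S := by simp

/-- composition, first `h` then `k` -/
def comp (h : Mor B C) (k : Mor C D) : Mor B D where
  f x := k (h x)
  inf x y := by rw [h.inf, k.inf]
  sup S := by rw [h.sup, k.sup, ← Set.image_comp]; rfl

/-- the morphism `x ↦ h x ⊓ c` -/
noncomputable def res (h : Mor B C) (c : El C) : Mor B C where
  f x := h x ⊓ c
  inf x y := by rw [h.inf, inf_inf_distrib_right]
  sup S := by
    rw [h.sup, sSup_inf_eq, iSup_image, sSup_image]

/-- the projection: the least `b` with `c ≤ h b` (for `c ≤ h ⊤`) -/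
noncomputable def proj (h : Mor B C) (c : El C) : El B := sInf {b | c ≤ h b}

/-- the graph as a set -/
noncomputable def gr (h : Mor B C) : V := ZFSet.range fun x : El B => ZFSet.pair x.val (h x).val

end Mor

/-! ## Regular open sets -/

/-- the regular open subsets of the preorder `(P, le)` -/
noncomputable def RO (P : V) (le : V → V → Prop) : V :=
  (ZFSet.powerset P).sep fun O => (∀ p ∈ O, ∀ q ∈ P, le q p → q ∈ O) ∧
    ∀ p ∈ P, (∀ q ∈ P, le q p → ∃ r ∈ O, le r q) → p ∈ O

/-- the regular open set generated by `p` -/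
noncomputable def cl (P : V) (le : V → V → Prop) (p : V) : V :=
  P.sep fun q => ∀ r ∈ P, le r q → ∃ s ∈ P, le s r ∧ le s p

end SF
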