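import Pool.Agent.H45.SF.Defs
import Pool.Agent.H9.SF.Dfb

/-!
# Targets of part G: morphisms, maps with values in an algebra, goodness
-/

open Ordinal Cardinal Order Set
open scoped ZFSet

namespace SF

/-! ## Morphisms -/

/-- MB. Basic properties of morphisms. -/
def T_MB : Prop := ∀ (B C : V) [IsCBA B] [IsCBA C] (h : Mor B C),
  (∀ x y, x ≤ y → h x ≤ h y) ∧ h ⊥ = ⊥ ∧ (∀ x y, h (x ⊔ y) = h x ⊔ h y) ∧
  (∀ x, h xᶜ = (h x)ᶜ ⊓ h ⊤) ∧ (∀ x y, h (x \ y) = h x \ h y) ∧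
  (∀ (ι : Type 1) (f : ι → El B), h (⨆ i, f i) = ⨆ i, h (f i)) ∧
  (∀ (ι : Type 1) (f : ι → El B), h (⨅ i, f i) = (⨅ i, h (f i)) ⊓ h ⊤)

/-- MP. Basic properties of projections. -/
def T_MP : Prop := ∀ (B C : V) [IsCBA B] [IsCBA C] (h : Mor B C),
  (∀ c b, c ≤ h ⊤ → (h.proj c ≤ b ↔ c ≤ h b)) ∧
  (∀ c, c ≤ h ⊤ → c ≤ h (h.proj c)) ∧
  (∀ c c', c ≤ c' → c' ≤ h ⊤ → h.proj c ≤ h.proj c') ∧
  (∀ c, c ≤ h ⊤ → (h.proj c = ⊥ ↔ c = ⊥)) ∧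
  (∀ c b, c ≤ h ⊤ → h.proj (c ⊓ h b) = h.proj c ⊓ b) ∧
  (∀ (ι : Type 1) (f : ι → El C), (∀ i, f i ≤ h ⊤) → h.proj (⨆ i, f i) = ⨆ i, h.proj (f i)) ∧
  (∀ b, h.proj (h b) = b ⊓ h.proj (h ⊤)) ∧
  (∀ b, h b = ⊥ ↔ b ⊓ h.proj (h ⊤) = ⊥)

/-- MC. Projection of a composition. -/
def T_MC : Prop := ∀ (B C D : V) [IsCBA B] [IsCBA C] [IsCBA D] (h : Mor B C) (k : Mor C D),
  ∀ d, d ≤ k (h ⊤) → (h.comp k).proj d = h.proj (k.proj d)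

/-- RS. The regular open algebra. -/
def T_RS : Prop := ∀ (P : V) (le : V → V → Prop), (∀ p ∈ P, le p p) →
  (∀ p ∈ P, ∀ q ∈ P, ∀ r ∈ P, le p q → le q r → le p r) → ∀ [IsCBA (RO P le)],
    (∀ (ι : Type 1) (f : ι → El (RO P le)) (X : El (RO P le)),
      (X ≤ ⨆ i, f i ↔ ∀ p ∈ X.val, ∃ q ∈ P, le q p ∧ ∃ i, q ∈ (f i).val)) ∧
    (∀ (ι : Type 1) (f : ι → El (RO P le)) (p : V),
      (p ∈ (⨅ i, f i).val ↔ p ∈ P ∧ ∀ i, p ∈ (f i).val)) ∧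
    (∀ (X : El (RO P le)) (p : V), (p ∈ (Xᶜ).val ↔ p ∈ P ∧ ∀ q ∈ P, le q p → q ∉ X.val)) ∧
    (⊤ : El (RO P le)).val = P ∧
    (∀ X : El (RO P le), X ≠ ⊥ ↔ ∃ p, p ∈ X.val) ∧
    (∀ X Y : El (RO P le), X ⊓ Y ≠ ⊥ ↔ ∃ p, p ∈ X.val ∧ p ∈ Y.val) ∧
    (∀ p ∈ P, cl P le p ∈ RO P le ∧ p ∈ cl P le p ∧ (∀ q ∈ P, le q p → q ∈ cl P le p) ∧
      (∀ X : El (RO P le), cl P le p ⊆ X.val ↔ p ∈ X.val)) ∧
    (∀ X : El (RO P le), X = ⨆ p : El X.val, mkEl (RO P le) (cl P le p.val))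

/-! ## Maps with values in an algebra -/

/-- ZN. The structure `N'` satisfies the same axioms. -/
def T_ZN : Prop := ∀ (B : V) [IsCBA B] (N' N : V) (b : El B) (σ : V → V → El B),
  NP N' N → BMap N' N b σ → b ≠ ⊥ → ZFCm (· ∈ N')

/-- TR. Transfer of definable relations. -/
def T_TR : Prop := ∀ R : (V → Prop) → (ℕ → V) → Prop, Dfb ZFm R →
  ∀ (B : V) [IsCBA B] (N' N : V) (b : El B) (σ : V → V → El B), NP N' N → BMap N' N b σ →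
    ∀ s : Finset (V × V), (s.inf fun q => σ q.1 q.2) ≠ ⊥ → ∀ v : ℕ → V × V, (∀ i, v i ∈ s) →
      (R (· ∈ N') (fun i => (v i).1) ↔ R (· ∈ N) (fun i => (v i).2))

/-- TF. Transfer of definable functions. -/
def T_TF : Prop := ∀ f : (V → Prop) → (ℕ → V) → V, Tm ZFm f →
  ∀ (B : V) [IsCBA B] (N' N : V) (b : El B) (σ : V → V → El B), NP N' N → BMap N' N b σ →
    ∀ s : Finset (V × V), (s.inf fun q => σ q.1 q.2) ≠ ⊥ → ∀ v : ℕ → V × V, (∀ i, v i ∈ s) →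
      f (· ∈ N') (fun i => (v i).1) ∈ N' ∧
      (s.inf fun q => σ q.1 q.2) ≤
        σ (f (· ∈ N') (fun i => (v i).1)) (f (· ∈ N) (fun i => (v i).2))

/-- AM. Atomic formulas. -/
def T_AM : Prop := ∀ (B : V) [IsCBA B] (N' N : V) (b : El B) (σ : V → V → El B),
  NP N' N → BMap N' N b σ → ∀ x y x2 y2, σ x y ⊓ σ x2 y2 ≠ ⊥ →
    ((x ∈ x2 ↔ y ∈ y2) ∧ (x = x2 ↔ y = y2) ∧ (x ⊆ x2 ↔ y ⊆ y2) ∧ (x = ∅ ↔ y = ∅))

/-- AP. Pairs. -/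
def T_AP : Prop := ∀ (B : V) [IsCBA B] (N' N : V) (b : El B) (σ : V → V → El B),
  NP N' N → BMap N' N b σ → b ≠ ⊥ →
    (∀ x ∈ N', ∀ x2 ∈ N', ZFSet.pair x x2 ∈ N' ∧
      (∀ y y2, σ x y ⊓ σ x2 y2 ≤ σ (ZFSet.pair x x2) (ZFSet.pair y y2)) ∧
      (∀ z, σ (ZFSet.pair x x2) z ≠ ⊥ → ∃ y y2, z = ZFSet.pair y y2 ∧
        σ (ZFSet.pair x x2) z ≤ σ x y ⊓ σ x2 y2)) ∧
    (∀ z' y y2, σ z' (ZFSet.pair y y2) ≠ ⊥ → ∃ x ∈ N', ∃ x2 ∈ N', z' = ZFSet.pair x x2 ∧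
      σ z' (ZFSet.pair y y2) ≤ σ x y ⊓ σ x2 y2) ∧
    (∀ x ∈ N', ∀ x2 ∈ N', x ∩ x2 ∈ N' ∧ ∀ y y2, σ x y ⊓ σ x2 y2 ≤ σ (x ∩ x2) (y ∩ y2)) ∧
    N'.IsTransitive ∧ ∅ ∈ N' ∧ σ ∅ ∅ = b

/-- AF. Application of known functions. -/
def T_AF : Prop := ∀ (B : V) [IsCBA B] (N' N : V) (b : El B) (σ : V → V → El B),
  NP N' N → BMap N' N b σ → b ≠ ⊥ → ∀ F' F X' X, σ F' F = b → σ X' X = b →
    (∀ y ∈ X, ∃! z, ZFSet.pair y z ∈ F) → ∀ x ∈ X', x ∈ N' ∧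
      ∃ x2 ∈ N', (∀ x3, ZFSet.pair x x3 ∈ F' ↔ x3 = x2) ∧
        (∀ y, σ x y ≠ ⊥ → y ∈ X) ∧ ∀ y z, ZFSet.pair y z ∈ F → σ x y ≤ σ x2 z

/-- AD. Dense sets. -/
def T_AD : Prop := ∀ (B : V) [IsCBA B] (N' N : V) (b : El B) (σ : V → V → El B),
  NP N' N → BMap N' N b σ → b ≠ ⊥ → ∀ C' C, σ C' C = b → ∀ D E, σ D E ≠ ⊥ →
    ((D ⊆ C' ↔ E ⊆ C) ∧
      ((∀ x ∈ C', x ≠ ∅ → ∃ d ∈ D, d ≠ ∅ ∧ d ⊆ x) ↔ ∀ x ∈ C, x ≠ ∅ → ∃ d ∈ E, d ≠ ∅ ∧ d ⊆ x))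

/-- AK. Natural numbers know themselves. -/
def T_AK : Prop := ∀ (B : V) [IsCBA B] (N' N : V) (b : El B) (σ : V → V → El B),
  NP N' N → BMap N' N b σ → b ≠ ⊥ →
    (∀ n : ℕ, (n : Ordinal.{0}).toZFSet ∈ N' ∧
      σ (n : Ordinal.{0}).toZFSet (n : Ordinal.{0}).toZFSet = b) ∧
    (ω : Ordinal.{0}).toZFSet ∈ N' ∧ σ (ω : Ordinal.{0}).toZFSet (ω : Ordinal.{0}).toZFSet = b

/-- the set of all hereditarily countable sets -/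
noncomputable def HC : V :=
  (V_ (Ordinal.omega.{0} 1)).sep fun x => ∃ t : V, t.IsTransitive ∧ (t : Set V).Countable ∧ x ⊆ t

/-- AH. Elements of `HC` know themselves. -/
def T_AH : Prop := ∀ (B : V) [IsCBA B] (N' N : V) (b : El B) (σ : V → V → El B),
  NP N' N → BMap N' N b σ → b ≠ ⊥ → ∀ H', σ H' HC = b → H'.IsTransitive ∧
    (∀ x ∈ H', σ x x = b ∧ x ∈ HC) ∧
    ∀ w, σ w w1 = b → ∃ δ : Ordinal.{0}, w = δ.toZFSet ∧ ω < δ ∧ δ < Ordinal.omega.{0} 1 ∧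
      IsSuccLimit δ ∧ (∀ β < δ, β.toZFSet ∈ H' ∧ σ β.toZFSet β.toZFSet = b) ∧
      ∀ x ∈ H', x.rank < δ

/-- AU. Known elements are unique. -/
def T_AU : Prop := ∀ (B : V) [IsCBA B] (N' N : V) (b : El B) (σ : V → V → El B),
  NP N' N → BMap N' N b σ → b ≠ ⊥ → ∀ x y, σ x y = b →
    x ∈ N' ∧ y ∈ N ∧ (∀ x2, σ x2 y = b → x2 = x) ∧ (∀ y2, σ x y2 ≠ ⊥ → y2 = y) ∧
    ∀ x2 y2, σ x2 y2 ≠ ⊥ → ((x2 ∈ x ↔ y2 ∈ y) ∧ (x2 = x ↔ y2 = y))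

/-- BR. Restriction and image of a map with values in an algebra. -/
def T_BR : Prop := ∀ (B C : V) [IsCBA B] [IsCBA C] (N' N : V) (b : El B) (σ : V → V → El B)
  (h : Mor B C), BMap N' N b σ → ∀ c, c ≤ h b → BMap N' N c (fun x y => h (σ x y) ⊓ c)

/-- BJ. Join of maps with disjoint values. -/
def T_BJ : Prop := ∀ (B : V) [IsCBA B] (N' N : V) (I : Type 1) (b : I → El B)
  (σ : I → V → V → El B), (∀ i j, i ≠ j → b i ⊓ b j = ⊥) → (∀ i, BMap N' N (b i) (σ i)) →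
    BMap N' N (⨆ i, b i) (fun x y => ⨆ i, σ i x y)

/-! ## Generic filters -/

/-- the function which maps a subset `E` of `B` to the set of all elements of `C` which are below
the image of an element of `E` -/
noncomputable def dimg {B C : V} [IsCBA B] [IsCBA C] (h : Mor B C) : V :=
  ZFSet.range fun E : El (ZFSet.powerset B) =>
    ZFSet.pair E.val (C.sep fun d => ∃ x : El B, x.val ∈ E.val ∧ d ⊆ (h x).val)

/-- the parameters of a morphism -/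
noncomputable def prm {B C : V} [IsCBA B] [IsCBA C] (h : Mor B C) : V :=
  ZFSet.pair B (ZFSet.pair C (ZFSet.pair h.gr (ZFSet.pair (ZFSet.powerset B) (dimg h))))

/-- the preimage of `G` for the function `h'` with domain `C'` -/
noncomputable def pull (C' h' G : V) : V := C'.sep fun x => ∃ y ∈ G, ZFSet.pair x y ∈ h'

/-- NR. The preimage of a generic filter is generic. -/
def T_NR : Prop := ∀ (B : V) [IsCBA B] (N' N : V) (b : El B) (σ : V → V → El B),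
  NP N' N → BMap N' N b σ → b ≠ ⊥ → ∀ (C1 C2 : V) [IsCBA C1] [IsCBA C2] (h : Mor C1 C2)
  (P' C1' C2' h' G' : V), σ P' (prm h) = b → σ C1' C1 = b → σ C2' C2 = b → σ h' h.gr = b →
  NGen N' C2' G' → (∃ x y, ZFSet.pair x y ∈ h' ∧ y ∈ G') → NGen N' C1' (pull C1' h' G')

/-! ## Goodness -/

namespace BMor

variable {A C D : BA}

/-- composition -/
def comp (h : BMor A C) (k : BMor C D) : BMor A D where
  toMor := h.toMor.comp k.toMor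
  base x := by
    show k.f (h.f (A.g x)) = D.g x ⊓ k.f (h.f ⊤)
    rw [h.base, k.inf, k.base, inf_assoc]
    congr 1
    have h1 : k.f (h.f ⊤) = k.f (⊤ ⊓ h.f ⊤) := by rw [top_inf_eq]
    rw [k.inf] at h1
    exact h1.symm

/-- the morphism `x ↦ h x ⊓ c` -/
noncomputable def res (h : BMor A C) (c : El C.B) : BMor A C where
  toMor := h.toMor.res c
  base x := by
    show h.f (A.g x) ⊓ c = C.g x ⊓ (h.f ⊤ ⊓ c)
    rw [h.base, inf_assoc]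

/-- the identity -/
def id (A : BA) : BMor A A where
  toMor := Mor.id A.B
  base x := (inf_top_eq _).symm

end BMor

/-- the base algebra over itself -/
noncomputable def BA0 : BA where
  B := B0
  g := Mor.id B0
  unit := rfl

/-- the base morphism -/
def bas (A : BA) : BMor BA0 A where
  toMor := A.g
  base x := by
    show A.g x = A.g x ⊓ A.g ⊤
    rw [A.unit, inf_top_eq]

/-- G0. A larger parameter is also good. -/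
def T_G0 : Prop := ∀ (A C : BA) (h : BMor A C) (p : V), (∀ F : Frame h p, ∀ q ∈ F.N',
  ∃ c σ', IsLift F q c σ') → ∀ r : V, (∀ F : Frame h (ZFSet.pair p r), ∀ q ∈ F.N',
  ∃ c σ', IsLift F q c σ') ∧ (∀ F : Frame h (ZFSet.pair r p), ∀ q ∈ F.N',
  ∃ c σ', IsLift F q c σ')

/-- G1. Composition. -/
def T_G1 : Prop := ∀ (A C D : BA) (h : BMor A C) (k : BMor C D), Good h → Good k → Good (h.comp k)

/-- G2. Morphisms onto the elements below the top are good. -/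
def T_G2 : Prop := ∀ (A C : BA) (h : BMor A C), (∀ c, c ≤ h ⊤ → ∃ b, h b = c) → Good h

/-- G3. Mixing. -/
def T_G3 : Prop := ∀ (A C : BA) (h : BMor A C) (S : Set (El C.B)), sSup S = h ⊤ →
  (∀ s ∈ S, ∀ t ∈ S, s ≠ t → s ⊓ t = ⊥) → (∀ s ∈ S, Good (h.res s)) → Good h

/-- a thread of a sequence of algebras -/
def Thr {A : ℕ → BA} (f : ∀ n, BMor (A n) (A (n + 1))) (t : ∀ n, El (A n).B) : Prop :=
  (∀ n, t n ≠ ⊥) ∧ ∀ n, (f n).proj (t (n + 1)) = t n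

/-- `Z` is the inverse limit of the sequence `A` -/
structure Lim (A : ℕ → BA) (f : ∀ n, BMor (A n) (A (n + 1))) (Z : BA) (k : ∀ n, BMor (A n) Z) :
    Prop where
  unit : ∀ n, f n ⊤ = ⊤
  inj : ∀ n x, f n x = ⊥ → x = ⊥
  kunit : ∀ n, k n ⊤ = ⊤
  comm : ∀ n x, k (n + 1) (f n x) = k n x
  thr : ∀ t : ∀ n, El (A n).B, Thr f t →
    (⨅ n, k n (t n)) ≠ ⊥ ∧ ∀ n, (k n).proj (⨅ m, k m (t m)) = t n
  dns : ∀ z : El Z.B, z ≠ ⊥ → ∃ t, Thr f t ∧ (⨅ n, k n (t n)) ≤ z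

/-- G4. Limits. -/
def T_G4 : Prop := ∀ (A : ℕ → BA) (f : ∀ n, BMor (A n) (A (n + 1))) (Z : BA)
  (k : ∀ n, BMor (A n) Z), Lim A f Z k → (∀ n, Good (f n)) → ∀ n, Good (k n)

/-- GL. The limit of maps with values in the algebras. -/
def T_GL : Prop := ∀ (A : ℕ → BA) (f : ∀ n, BMor (A n) (A (n + 1))) (Z : BA)
  (k : ∀ n, BMor (A n) Z), (∀ n x, k (n + 1) (f n x) = k n x) →
  ∀ (N' N : V) (b : ∀ n, El (A n).B) (c : El Z.B) (σ : ∀ n, V → V → El (A n).B) (e : ℕ → V),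
    (∀ x ∈ N', ∃ i, e i = x) → (∀ n, BMap N' N (b n) (σ n)) → (∀ n, c ≤ k n (b n)) →
    (∀ n i, i ≤ n → ∀ y, σ (n + 1) (e i) y = f n (σ n (e i) y) ⊓ b (n + 1)) →
    ∃ σ' : V → V → El Z.B, BMap N' N c σ' ∧
      ∀ n i, i ≤ n → ∀ y, σ' (e i) y = k n (σ n (e i) y) ⊓ c

/-- LI. Existence of limits. -/
def T_LI : Prop := ∀ (A : ℕ → BA) (f : ∀ n, BMor (A n) (A (n + 1))), (∀ n, f n ⊤ = ⊤) →
  (∀ n x, f n x = ⊥ → x = ⊥) → ∃ (Z : BA) (k : ∀ n, BMor (A n) Z), Lim A f Z k ∧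
    ∀ ρ : Ordinal.{0}, ω ≤ ρ → (∀ n, (A n).B ∈ V_ ρ) → Z.B ∈ V_ (ρ + ω)

/-- a product of algebras restricted to elements -/
structure Prd {I : Type 1} (A : I → BA) (e : ∀ i, El (A i).B) (Z : BA) (ι : ∀ i, BMor (A i) Z) :
    Prop where
  res : ∀ i x, ι i x = ι i (x ⊓ e i)
  inj : ∀ i x, ι i x = ⊥ → x ⊓ e i = ⊥
  onto : ∀ i z, z ≤ ι i ⊤ → ∃ x ≤ e i, ι i x = z
  dis : ∀ i j, i ≠ j → ι i ⊤ ⊓ ι j ⊤ = ⊥
  top : ⨆ i, ι i ⊤ = ⊤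

/-- PR. Existence of products. -/
def T_PR : Prop := ∀ (I : Type 1) (A : I → BA) (e : ∀ i, El (A i).B) (c : I → V)
  (ρ : Ordinal.{0}), Function.Injective c → (∀ i, c i ∈ V_ ρ) → (∀ i, (A i).B ∈ V_ ρ) →
    ∃ (Z : BA) (ι : ∀ i, BMor (A i) Z), Prd A e Z ι ∧ Z.B ∈ V_ (ρ + ω)

/-- the restriction of a frame to a smaller element -/
def Frame.le {A C : BA} {h : BMor A C} {p : V} (F' F : Frame h p) : Prop :=
  F'.N' = F.N' ∧ F'.N = F.N ∧ F'.b ≤ F.b ∧ (∀ x y, F'.σ x y = F.σ x y ⊓ F'.b) ∧ F'.w = F.w ∧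
    F'.B' = F.B' ∧ F'.C' = F.C' ∧ F'.h' = F.h' ∧ F'.p' = F.p' ∧ F'.G' = F.G'

/-- G5. If a frame has no lift which preserves `q` then some restriction of it is such that no
restriction of the latter has a lift; and each nonzero element gives a restriction. -/
def T_G5 : Prop := ∀ (A C : BA) (h : BMor A C) (p : V) (F : Frame h p), ∀ q ∈ F.N',
  (∀ b ≤ F.b, b ≠ ⊥ → ∃ F' : Frame h p, F'.le F ∧ F'.b = b) ∧
  ((¬ ∃ c σ', IsLift F q c σ') → ∃ F1 : Frame h p, F1.le F ∧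
    ∀ F2 : Frame h p, F2.le F1 → ¬ ∃ c σ', IsLift F2 q c σ')

/-- G6. Goodness is local: if `h` is good below all elements of a set then it is good below the
join. -/
def T_G6 : Prop := ∀ (A C : BA) (h : BMor A C) (S : Set (El A.B)),
  (∀ s ∈ S, Good (h.res (h s))) → Good (h.res (h (sSup S)))

end SF
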