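import Pool.Agent.H45.SF.El
import Pool.Agent.H9.FC.RO

/-!
# Regular open algebras
-/

open Ordinal Cardinal Order Set
open scoped ZFSet

namespace SF

open Pool.Agent.H9

/-- pull back a complete Boolean algebra along an equivalence -/
@[reducible] noncomputable def pullCBA {α β : Type*} [i : CompleteBooleanAlgebra β] (e : α ≃ β) :
    CompleteBooleanAlgebra α :=
  letI : Max α := ⟨fun a b => e.symm (e a ⊔ e b)⟩
  letI : Min α := ⟨fun a b => e.symm (e a ⊓ e b)⟩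
  letI : LE α := ⟨fun a b => e a ≤ e b⟩
  letI : LT α := ⟨fun a b => e a < e b⟩
  letI : SupSet α := ⟨fun s => e.symm (⨆ a ∈ s, e a)⟩
  letI : InfSet α := ⟨fun s => e.symm (⨅ a ∈ s, e a)⟩
  letI : Top α := ⟨e.symm ⊤⟩
  letI : Bot α := ⟨e.symm ⊥⟩
  letI : Compl α := ⟨fun a => e.symm (e a)ᶜ⟩
  letI : HImp α := ⟨fun a b => e.symm (e a ⇨ e b)⟩
  letI : SDiff α := ⟨fun a b => e.symm (e a \ e b)⟩
  e.injective.completeBooleanAlgebra e Iff.rfl Iff.rfl
    (fun _ _ => e.apply_symm_apply _) (fun _ _ => e.apply_symm_apply _)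
    (fun _ => e.apply_symm_apply _) (fun _ => e.apply_symm_apply _)
    (e.apply_symm_apply _) (e.apply_symm_apply _)
    (fun _ => e.apply_symm_apply _) (fun _ _ => e.apply_symm_apply _)
    (fun _ _ => e.apply_symm_apply _)

theorem mem_RO {P : V} {le : V → V → Prop} {O : V} : O ∈ RO P le ↔ O ⊆ P ∧
    (∀ p ∈ O, ∀ q ∈ P, le q p → q ∈ O) ∧
    ∀ p ∈ P, (∀ q ∈ P, le q p → ∃ r ∈ O, le r q) → p ∈ O := by
  unfold RO
  rw [ZFSet.mem_sep, ZFSet.mem_powerset]

theorem isCBA_RO {P : V} {le : V → V → Prop} (hr : ∀ p ∈ P, le p p)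
    (ht : ∀ p ∈ P, ∀ q ∈ P, ∀ r ∈ P, le p q → le q r → le p r) : IsCBA (RO P le) := by
  let _ : Preorder (El P) :=
    { le := fun a b => le a.val b.val
      le_refl := fun a => hr _ a.mem
      le_trans := fun a b c => ht _ a.mem _ b.mem _ c.mem }
  have key : ∀ (O : El (RO P le)), FC.IsRO {p : El P | p.val ∈ O.val} := by
    intro O p
    obtain ⟨h1, h2, h3⟩ := mem_RO.1 O.mem
    constructor
    · intro hp q hq
      exact ⟨q, le_rfl, h2 _ hp _ q.mem hq⟩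
    · intro h
      refine h3 _ p.mem fun q hq hqp => ?_
      obtain ⟨r, hr1, hr2⟩ := h ⟨q, hq⟩ hqp
      exact ⟨r.val, hr2, hr1⟩
  let e : El (RO P le) ≃ FC.RO (El P) :=
    { toFun := fun O => ⟨{p : El P | p.val ∈ O.val}, key O⟩
      invFun := fun D => ⟨P.sep fun p => ∃ h : p ∈ P, (⟨p, h⟩ : El P) ∈ D.1, by
        refine mem_RO.2 ⟨fun z hz => (ZFSet.mem_sep.1 hz).1, ?_, ?_⟩
        · intro p hp q hq hqp
          obtain ⟨h1, h2, h3⟩ := ZFSet.mem_sep.1 hp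
          exact ZFSet.mem_sep.2 ⟨hq, hq, D.2.lower h3 hqp⟩
        · intro p hp h
          refine ZFSet.mem_sep.2 ⟨hp, hp, (D.2 _).2 fun q hq => ?_⟩
          obtain ⟨r, hr1, hr2⟩ := h q.val q.mem hq
          obtain ⟨h1, h2, h3⟩ := ZFSet.mem_sep.1 hr1
          exact ⟨⟨r, h2⟩, hr2, h3⟩⟩
      left_inv := by
        intro O
        apply El.ext
        show (P.sep fun p => ∃ h : p ∈ P, (⟨p, h⟩ : El P).val ∈ O.val) = O.val
        ext p
        constructor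
        · intro h
          obtain ⟨h1, h2, h3⟩ := ZFSet.mem_sep.1 h
          exact h3
        · intro h
          exact ZFSet.mem_sep.2 ⟨(mem_RO.1 O.mem).1 h, (mem_RO.1 O.mem).1 h, h⟩
      right_inv := by
        intro D
        apply Subtype.ext
        ext p
        show (p.val ∈ P.sep fun p => ∃ h : p ∈ P, (⟨p, h⟩ : El P) ∈ D.1) ↔ p ∈ D.1
        constructor
        · intro h
          obtain ⟨h1, h2, h3⟩ := ZFSet.mem_sep.1 h
          exact h3
        · intro h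
          exact ZFSet.mem_sep.2 ⟨p.mem, p.mem, h⟩ }
  refine ⟨⟨pullCBA e, ?_⟩, ?_, ?_⟩
  · intro x y
    show (e x ≤ e y) ↔ _
    constructor
    · intro h z hz
      exact h (show (⟨z, (mem_RO.1 x.mem).1 hz⟩ : El P) ∈ (e x).1 from hz)
    · intro h z hz
      exact h hz
  · refine mem_RO.2 ⟨ZFSet.empty_subset _, fun p hp => (ZFSet.notMem_empty _ hp).elim, ?_⟩
    intro p hp h
    obtain ⟨r, hr1, -⟩ := h p hp (hr p hp)
    exact (ZFSet.notMem_empty _ hr1).elim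
  · intro x hx y hy
    obtain ⟨x1, x2, x3⟩ := mem_RO.1 hx
    obtain ⟨y1, y2, y3⟩ := mem_RO.1 hy
    refine mem_RO.2 ⟨fun z hz => x1 (ZFSet.mem_inter.1 hz).1, ?_, ?_⟩
    · intro p hp q hq hqp
      obtain ⟨a, b⟩ := ZFSet.mem_inter.1 hp
      exact ZFSet.mem_inter.2 ⟨x2 _ a _ hq hqp, y2 _ b _ hq hqp⟩
    · intro p hp h
      refine ZFSet.mem_inter.2 ⟨x3 _ hp fun q hq hqp => ?_, y3 _ hp fun q hq hqp => ?_⟩
      · obtain ⟨r, a, b⟩ := h q hq hqp
        exact ⟨r, (ZFSet.mem_inter.1 a).1, b⟩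
      · obtain ⟨r, a, b⟩ := h q hq hqp
        exact ⟨r, (ZFSet.mem_inter.1 a).2, b⟩

end SF
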