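import Pool.Agent.H45.SF.UT
import Pool.Agent.H9.SF.WDefs

/-!
# The forcing axiom: reflection (part R)
-/

open Ordinal Cardinal Order Set
open scoped ZFSet

namespace SF

/-- The reflected situation: `κ'`, `Z'`, `C'`, `k'` are the preimages of `κ`, `Z`, `C`, `k` for an
elementary map `J` of a rank `V_λ'`, `λ' < κ`, into a rank `V_λ`, which is the identity on
`V_κ'`. -/
structure Rf (κ κ' : Ordinal.{0}) (Z C : BA) (k : BMor Z C) (D : Ordinal.{0} → Set (El C.B))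
    (Z' C' : BA) (i' : ∀ v : Obj, BMor v.A Z') (k' : BMor Z' C') (J : V → V) : Prop where
  lt : κ' < κ
  inac : Inac κ'
  cu : CU κ' Z' i'
  rank : C'.B ∈ V_ κ
  good : Good k'
  unit : k' ⊤ = ⊤
  jZ : ∀ x : El Z'.B, J x.val ∈ Z.B ∧ x.val ⊆ J x.val
  jC : ∀ x : El C'.B, J x.val ∈ C.B
  bot : J ∅ = ∅
  inf : ∀ x y : El C'.B, J (x.val ∩ y.val) = J x.val ∩ J y.val
  jk : ∀ (x : El Z'.B) (y : El Z.B), y.val = J x.val → J (k' x).val = (k y).val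
  jp : ∀ (x : El C'.B) (y : El C.B), y.val = J x.val →
    J (k'.toMor.proj x).val = (k.toMor.proj y).val
  dns : ∀ i < o1, ∃ D' : Set (El C'.B), sSup D' = ⊤ ∧ ∀ d ∈ D', ∃ e ∈ D i, e.val = J d.val

/-- reflection for the category forcing of `κ` -/
def RFL (κ : Ordinal.{0}) : Prop := ∀ (Z : BA) (i : ∀ v : Obj, BMor v.A Z), CU κ Z i →
  ∀ (C : BA) (k : BMor Z C), Good k → k ⊤ = ⊤ → ∀ D : Ordinal.{0} → Set (El C.B),
    (∀ i < o1, sSup (D i) = ⊤) → ∀ u : Cd, u.code ∈ V_ κ →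
      ∃ (κ' : Ordinal.{0}) (Z' C' : BA) (i' : ∀ v : Obj, BMor v.A Z') (k' : BMor Z' C')
        (J : V → V), Rf κ κ' Z C k D Z' C' i' k' J ∧ u.code ∈ V_ κ'

/-- RA. Reflection at a supercompact cardinal (part K). -/
def T_RA : Prop := (∃ κ : Cardinal.{0}, Supercompact κ) → ∃ κ : Ordinal.{0}, Inac κ ∧ RFL κ

/-- RB. The target of a good morphism is an object. -/
def T_RB : Prop := ∀ (κ κ' : Ordinal.{0}) (Z' C' : BA) (i' : ∀ v : Obj, BMor v.A Z')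
  (k' : BMor Z' C'), Inac κ → Inac κ' → κ' < κ → CU κ' Z' i' → C'.B ∈ V_ κ → Good k' →
  k' ⊤ = ⊤ → ∃ (α : Ordinal.{0}) (b : Ordinal.{0} → El C'.B) (h1 : _) (h2 : _) (h3 : _),
    (Obj.mk C' α b h1 h2 h3).code ∈ V_ κ ∧ ∀ c : Cd, c.code ∈ V_ κ' →
      ∀ h : k' (i' c.v c.x) ≠ ⊥, Cd.le ⟨Obj.mk C' α b h1 h2 h3, k' (i' c.v c.x), h⟩ c

/-- RC. The forcing axiom from the reflected situation. -/
def T_RC : Prop := ∀ (κ κ' : Ordinal.{0}) (Z C : BA) (i : ∀ v : Obj, BMor v.A Z) (k : BMor Z C)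
  (D : Ordinal.{0} → Set (El C.B)) (Z' C' : BA) (i' : ∀ v : Obj, BMor v.A Z')
  (k' : BMor Z' C') (J : V → V), Inac κ → CU κ Z i → k ⊤ = ⊤ →
  Rf κ κ' Z C k D Z' C' i' k' J → ∀ u : Cd, u.code ∈ V_ κ' → i u.v u.x ≤ k.toMor.proj ⊤ →
    ∃ b2 ≤ i u.v u.x, b2 ≠ ⊥ ∧ ∃ F : El C.B → El Z.B,
      (∀ c d, F (c ⊓ d) = F c ⊓ F d) ∧ F ⊥ = ⊥ ∧ F ⊤ = b2 ∧
      (∀ x, F (k x) = x ⊓ b2) ∧ ∀ j < o1, ⨆ d ∈ D j, F d = b2

/-- RD. The forcing axiom holds for the category forcing. -/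
def T_RD : Prop := ∀ (κ : Ordinal.{0}) (Z : BA) (i : ∀ v : Obj, BMor v.A Z), Inac κ → RFL κ →
  CU κ Z i → FAx Z

/-- RE. The part of the theorem which is proved in the universe. -/
def T_RE : Prop := (∃ κ : Ordinal.{0}, Inac κ ∧ RFL κ) → VSide

end SF
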