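import Mathlib

/-!
# MP_3b3fc8_lc: the subcomplete forcing axiom and diamond-star. Statement level definitions

`V` is the type of all sets (of the lowest universe). A class of sets is a predicate `V → Prop`.
-/

open Ordinal Cardinal Order Set
open scoped ZFSet

namespace SF

/-- the universe of sets -/
abbrev V : Type 1 := ZFSet.{0}

/-! ## Formulas, satisfaction, axioms -/

/-- First-order formulas of the language with `∈`, `=` and one unary predicate symbol; variables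
are de Bruijn indices. -/
inductive Fml : Type
  /-- `v i ∈ v j` -/
  | mem (i j : ℕ) : Fml
  /-- `v i = v j` -/
  | eq (i j : ℕ) : Fml
  /-- `v i` has the predicate -/
  | prd (i : ℕ) : Fml
  /-- negation -/
  | neg (φ : Fml) : Fml
  /-- conjunction -/
  | and (φ ψ : Fml) : Fml
  /-- existential quantifier (over the variable `0`) -/
  | ex (φ : Fml) : Fml

/-- the sequence `x, v 0, v 1, ...` -/
def cons (x : V) (v : ℕ → V) : ℕ → V
  | 0 => x
  | n + 1 => v n

/-- satisfaction of a formula in the structure `(M, ∈, A)` -/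
def SatP (M A : V → Prop) : Fml → (ℕ → V) → Prop
  | .mem i j, v => v i ∈ v j
  | .eq i j, v => v i = v j
  | .prd i, v => A (v i)
  | .neg φ, v => ¬ SatP M A φ v
  | .and φ ψ, v => SatP M A φ v ∧ SatP M A ψ v
  | .ex φ, v => ∃ x, M x ∧ SatP M A φ (cons x v)

/-- satisfaction of a formula in the structure `(M, ∈)` (the predicate symbol is not used; it is
interpreted as the empty predicate) -/
def Sat (M : V → Prop) (φ : Fml) (v : ℕ → V) : Prop := SatP M (fun _ => False) φ v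

/-- The transitive class `M` satisfies the axioms of ZF without the power set axiom, with
Collection (Extensionality and Foundation hold in every transitive class). -/
structure ZFm (M : V → Prop) : Prop where
  trans : ∀ x, M x → ∀ y ∈ x, M y
  pair : ∀ x y, M x → M y → M {x, y}
  union : ∀ x, M x → M (⋃₀ x : ZFSet)
  inf : M (ω : Ordinal.{0}).toZFSet
  sep : ∀ (φ : Fml) (v : ℕ → V) (a : V), (∀ i, M (v i)) → M a →
    M (a.sep fun z => Sat M φ (cons z v))
  coll : ∀ (φ : Fml) (v : ℕ → V) (a : V), (∀ i, M (v i)) → M a →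
    (∀ x ∈ a, ∃ y, M y ∧ Sat M φ (cons y (cons x v))) →
    ∃ b, M b ∧ ∀ x ∈ a, ∃ y ∈ b, Sat M φ (cons y (cons x v))

/-- `f` is a function from `x` onto `y` -/
def Onto (f x y : V) : Prop := ZFSet.IsFunc x y f ∧ ∀ b ∈ y, ∃ a ∈ x, ZFSet.pair a b ∈ f

/-- `M` satisfies `ZFC⁻`: every set is the image of an ordinal. -/
structure ZFCm (M : V → Prop) : Prop extends ZFm M where
  wo : ∀ x, M x → ∃ (α : Ordinal.{0}) (f : V), M f ∧ Onto f α.toZFSet x

/-- `M` satisfies `ZFC`. -/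
structure ZFC (M : V → Prop) : Prop extends ZFCm M where
  pow : ∀ x, M x → ∃ y, M y ∧ ∀ z, M z → z ⊆ x → z ∈ y

/-! ## The constructible hierarchies -/

/-- the subsets of `x` which are definable with parameters in the structure `(x, ∈, A ∩ x)` -/
noncomputable def Def (x A : V) : V :=
  (ZFSet.powerset x).sep fun y => ∃ (φ : Fml) (l : List V), (∀ p ∈ l, p ∈ x) ∧
    y = x.sep fun z => SatP (· ∈ x) (· ∈ A) φ (cons z fun i => l.getD i z)

/-- The constructible hierarchy with first level `a` and with the predicate `A`: at each step the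
definable subsets are added. -/
noncomputable def Lh (a A : V) (α : Ordinal.{0}) : V :=
  a ∪ ⋃ β : Set.Iio α, Def (Lh a A β.1) A
termination_by α
decreasing_by exact β.2

/-- `L_α[A]` -/
noncomputable def LA (A : V) (α : Ordinal.{0}) : V := Lh ∅ A α

/-- `L_γ(N)` for a transitive set `N`; the first level is the transitive closure `N ∪ {N}` of
`{N}`. -/
noncomputable def LN (N : V) (γ : Ordinal.{0}) : V := Lh (insert N N) ∅ γ

/-! ## Notions relative to a transitive class `W` -/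

variable (W : V → Prop)

/-- the value `f x` of a function -/
noncomputable def app (f x : V) : V := ⋃₀ ((⋃₀ ⋃₀ f : ZFSet).sep fun y => ZFSet.pair x y ∈ f)

/-- `f : N' ≺ N` -/
structure IsElem (N' N f : V) : Prop where
  func : ZFSet.IsFunc N' N f
  el : ∀ (φ : Fml) (v : ℕ → V), (∀ i, v i ∈ N') →
    (Sat (· ∈ N') φ v ↔ Sat (· ∈ N) φ fun i => app f (v i))

/-- `x` is countable in `W` -/
def Ctbl (x : V) : Prop := x = ∅ ∨ ∃ f, W f ∧ Onto f (ω : Ordinal.{0}).toZFSet x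

/-- `N` is full (in `W`) -/
def Full (N : V) : Prop :=
  N.IsTransitive ∧ (ω : Ordinal.{0}).toZFSet ∈ N ∧ ∃ γ : Ordinal.{0}, W γ.toZFSet ∧
    ZFCm (· ∈ LN N γ) ∧
    ∀ x ∈ N, ∀ f ∈ LN N γ, ZFSet.IsFunc x N f → (N.sep fun y => ∃ u ∈ x, ZFSet.pair u y ∈ f) ∈ N

/-- `θ` is an infinite cardinal in `W` -/
def IsCard (θ : Ordinal.{0}) : Prop :=
  ω ≤ θ ∧ W θ.toZFSet ∧ ∀ β < θ, ¬ ∃ f, W f ∧ Onto f β.toZFSet θ.toZFSet

/-- `x` is in `H_θ` of `W`: it is a subset of a transitive set of size less than `θ` -/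
def InH (θ : Ordinal.{0}) (x : V) : Prop :=
  W x ∧ ∃ t, W t ∧ t.IsTransitive ∧ x ⊆ t ∧ ∃ β < θ, ∃ f, W f ∧ Onto f β.toZFSet t

/-- `ω₁` of `W` -/
def IsOmega1 (o : Ordinal.{0}) : Prop :=
  W o.toZFSet ∧ ¬ Ctbl W o.toZFSet ∧ ∀ β < o, Ctbl W β.toZFSet

/-! ## Forcing -/

/-- `(c, r)` is a forcing notion: `r` is a reflexive transitive relation on the nonempty set `c`;
`ZFSet.pair p q ∈ r` means that `p` is stronger than `q`. -/
structure IsPo (c r : V) : Prop where
  ne : c.Nonempty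
  sub : ∀ z ∈ r, ∃ p ∈ c, ∃ q ∈ c, z = ZFSet.pair p q
  refl : ∀ p ∈ c, ZFSet.pair p p ∈ r
  trans : ∀ p q s, ZFSet.pair p q ∈ r → ZFSet.pair q s ∈ r → ZFSet.pair p s ∈ r

/-- `D` is a dense subset of the forcing notion `(c, r)` -/
def IsDense (c r D : V) : Prop := D ⊆ c ∧ ∀ p ∈ c, ∃ d ∈ D, ZFSet.pair d p ∈ r

/-- `F` is a filter on `(c, r)` -/
structure IsFil (c r F : V) : Prop where
  sub : F ⊆ c
  ne : F.Nonempty
  up : ∀ p ∈ F, ∀ q, ZFSet.pair p q ∈ r → q ∈ F
  dir : ∀ p ∈ F, ∀ q ∈ F, ∃ s ∈ F, ZFSet.pair s p ∈ r ∧ ZFSet.pair s q ∈ r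

/-- `G` is a generic filter over the class `M` -/
def Gen (M : V → Prop) (c r G : V) : Prop :=
  IsFil c r G ∧ ∀ D, M D → IsDense c r D → ∃ p ∈ G, p ∈ D

/-- first component of a pair -/
noncomputable def fst (q : V) : V :=
  open Classical in if h : ∃ x y, q = ZFSet.pair x y then h.choose else ∅

theorem fst_pair (x y : V) : fst (ZFSet.pair x y) = x := by
  have h : ∃ a b, ZFSet.pair x y = ZFSet.pair a b := ⟨x, y, rfl⟩
  unfold fst
  rw [dif_pos h]
  obtain ⟨b, hb⟩ := h.choose_spec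
  exact (ZFSet.pair_injective hb).1.symm

theorem rank_fst_lt {q x : V} (hq : q ∈ x) (h : ∃ a b, q = ZFSet.pair a b) :
    (fst q).rank < x.rank := by
  obtain ⟨a, b, rfl⟩ := h
  rw [fst_pair]
  refine lt_trans ?_ (ZFSet.rank_lt_of_mem hq)
  have h1 : a ∈ ({a} : V) := ZFSet.mem_singleton.2 rfl
  have h2 : ({a} : V) ∈ ZFSet.pair a b := by
    unfold ZFSet.pair
    exact ZFSet.mem_pair.2 (Or.inl rfl)
  exact lt_trans (ZFSet.rank_lt_of_mem h1) (ZFSet.rank_lt_of_mem h2)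

/-- The value of a name `x` for a filter `G`: the set of the values of all `y` such that
`(y, p) ∈ x` for some `p ∈ G`. -/
noncomputable def val (G x : V) : V :=
  ZFSet.range fun q : (x.sep fun q => ∃ y, ∃ p ∈ G, q = ZFSet.pair y p : V) => val G (fst q.1)
termination_by x.rank
decreasing_by
  obtain ⟨h1, y, p, -, h⟩ := ZFSet.mem_sep.1 q.2
  exact rank_fst_lt h1 ⟨y, p, h⟩

/-- the generic extension `W[G]` -/
def Ext (G : V) (y : V) : Prop := ∃ x, W x ∧ y = val G x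

/-! ## Subcomplete forcing -/

/-- `δ(P)`: the least size of a dense subset, in `W` -/
def IsDelta (c r : V) (δ : Ordinal.{0}) : Prop :=
  (∃ D f, W D ∧ W f ∧ IsDense c r D ∧ Onto f δ.toZFSet D) ∧
  ∀ β < δ, ¬ ∃ D f, W D ∧ W f ∧ IsDense c r D ∧ Onto f β.toZFSet D

/-- `Y` is an elementary submodel of `N` -/
def ElSub (Y N : V) : Prop :=
  Y ⊆ N ∧ ∀ (φ : Fml) (v : ℕ → V), (∀ i, v i ∈ Y) → (Sat (· ∈ Y) φ v ↔ Sat (· ∈ N) φ v)

/-- `C^N_δ(X)`: the least elementary submodel of `N` which contains `X ∪ δ` -/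
noncomputable def Hull (N : V) (δ : Ordinal.{0}) (X : V) : V :=
  N.sep fun z => ∀ Y, ElSub Y N → X ∪ δ.toZFSet ⊆ Y → z ∈ Y

/-- the range of a function with values in `N` -/
noncomputable def ran (N f : V) : V := N.sep fun y => ∃ u, ZFSet.pair u y ∈ f

/-- The forcing notion `(c, r)` of the model `W` is subcomplete in `W` (Jensen). -/
def Subcomplete (c r : V) : Prop :=
  ∃ θ₀ : Ordinal.{0}, W θ₀.toZFSet ∧ ∀ θ : Ordinal.{0}, θ₀ ≤ θ → IsCard W θ →
    InH W θ (ZFSet.pair c r) →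
    ∀ (τ : Ordinal.{0}) (A N : V), θ < τ → W τ.toZFSet → W A → N = LA A τ →
      (∀ x, InH W θ x → x ∈ N) → ZFCm (· ∈ N) →
    ∀ (N' f θ' c' r' s' s : V), W N' → W f → Ctbl W N' → Full W N' → IsElem N' N f →
      θ' ∈ N' → ZFSet.pair c' r' ∈ N' → s' ∈ N' →
      app f θ' = θ.toZFSet → app f (ZFSet.pair c' r') = ZFSet.pair c r → app f s' = s →
    ∀ G', W G' → Gen (· ∈ N') c' r' G' →
    ∃ p ∈ c, ∀ G, Gen W c r G → p ∈ G →
      ∃ f', Ext W G f' ∧ IsElem N' N f' ∧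
        app f' θ' = θ.toZFSet ∧ app f' (ZFSet.pair c' r') = ZFSet.pair c r ∧ app f' s' = s ∧
        (∀ x ∈ G', app f' x ∈ G) ∧
        ∀ δ, IsDelta W c r δ → Hull N δ (ran N f') = Hull N δ (ran N f)

/-- The subcomplete forcing axiom in `W`. -/
def SCFA : Prop :=
  ∀ c r, W c → W r → IsPo c r → Subcomplete W c r →
    ∀ (o : Ordinal.{0}) (D : V), IsOmega1 W o → W D →
      (∀ i < o, IsDense c r (app D i.toZFSet)) →
      ∃ F, W F ∧ IsFil c r F ∧ ∀ i < o, ∃ p ∈ F, p ∈ app D i.toZFSet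

/-- The principle diamond-star in `W`. -/
def DiamondStar : Prop :=
  ∃ (o : Ordinal.{0}) (A : V), IsOmega1 W o ∧ W A ∧
    (∀ α < o, Ctbl W (app A α.toZFSet) ∧ ∀ x ∈ app A α.toZFSet, x ⊆ α.toZFSet) ∧
    ∀ X, W X → X ⊆ o.toZFSet → ∃ C, W C ∧
      (∀ α : Ordinal.{0}, α.toZFSet ∈ C → α < o) ∧ (∀ x ∈ C, ∃ α : Ordinal.{0}, x = α.toZFSet) ∧
      (∀ β < o, ∃ α : Ordinal.{0}, β < α ∧ α.toZFSet ∈ C) ∧
      (∀ α < o, α ≠ 0 → (∀ β < α, ∃ γ : Ordinal.{0}, β < γ ∧ γ < α ∧ γ.toZFSet ∈ C) →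
        α.toZFSet ∈ C) ∧
      ∀ α : Ordinal.{0}, α.toZFSet ∈ C → X ∩ α.toZFSet ∈ app A α.toZFSet

/-! ## The large cardinal and the theorem -/

/-- `κ` is supercompact: it is uncountable and for every (index) type `T` there is a fine normal
`κ`-complete ultrafilter on `P_κ(T)`. -/
def Supercompact (κ : Cardinal.{0}) : Prop :=
  ℵ₀ < κ ∧ ∀ T : Type, ∃ U : Ultrafilter (Set T),
    {X : Set T | #X < κ} ∈ U ∧
    (∀ t : T, {X : Set T | t ∈ X} ∈ U) ∧
    (∀ (I : Type) (S : I → Set (Set T)), #I < κ → (∀ i, S i ∈ U) → (⋂ i, S i) ∈ U) ∧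
    ∀ f : Set T → T, {X : Set T | f X ∈ X} ∈ U → ∃ t, {X : Set T | f X = t} ∈ U

/-- There is a countable transitive model of ZFC in which the subcomplete forcing axiom and
diamond-star hold. -/
def Goal : Prop :=
  ∃ W : V, (W : Set V).Countable ∧ ZFC (· ∈ W) ∧ SCFA (· ∈ W) ∧ DiamondStar (· ∈ W)

end SF
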