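import Pool.Agent.H45.SF.GT
import Pool.Agent.H9.SF.Bas

/-!
# The category forcing: definitions and targets (part U)
-/

open Ordinal Cardinal Order Set
open scoped ZFSet

namespace SF

/-! ## Inaccessible ordinals -/

/-- `κ` is (strongly) inaccessible: the rank `V_κ` satisfies replacement for all functions -/
structure Inac (κ : Ordinal.{0}) : Prop where
  lim : IsSuccLimit κ
  big : Ordinal.omega.{0} 1 < κ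
  repl : ∀ x ∈ V_ κ, ∀ f : El x → V, (∀ i, f i ∈ V_ κ) → ZFSet.range f ∈ V_ κ

/-! ## General lemmas on good morphisms -/

/-- `h` is good with witness `p` -/
def GoodW {A C : BA} (h : BMor A C) (p : V) : Prop :=
  ∀ F : Frame h p, ∀ q ∈ F.N', ∃ c σ', IsLift F q c σ'

/-- DN. The algebra of all elements below `t`. -/
def T_DN : Prop := ∀ (A : BA) (t : El A.B), ∃ (D : BA) (r : BMor A D) (i : BMor D A),
  D.B = A.B.sep (· ⊆ t.val) ∧ r ⊤ = ⊤ ∧ i ⊤ = t ∧ (∀ x, i (r x) = x ⊓ t) ∧ (∀ y, r (i y) = y) ∧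
    Good r ∧ Good i

/-- PB. A morphism which is onto the elements below its top has a quasi-inverse. -/
def T_PB : Prop := ∀ (A Z : BA) (ι : BMor A Z), (∀ z ≤ ι ⊤, ∃ y, ι y = z) →
  Good ι ∧ ∃ ρ : BMor Z A, Good ρ ∧ (∀ z, ρ z = ι.toMor.proj (z ⊓ ι ⊤)) ∧
    (∀ z, ι (ρ z) = z ⊓ ι ⊤) ∧ (∀ x, ρ (ι x) = x ⊓ ρ ⊤) ∧ (∀ x, ι (x ⊓ ρ ⊤) = ι x) ∧
    ∀ x ≤ ρ ⊤, ∃ z ≤ ι ⊤, ρ z = x

/-- JM. The join of morphisms with disjoint tops. -/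
def T_JM : Prop := ∀ (I : Type 1) (A Z : BA) (f : I → BMor A Z),
  (∀ i j, i ≠ j → f i ⊤ ⊓ f j ⊤ = ⊥) → (∀ i, Good (f i)) →
    ∃ k : BMor A Z, (∀ x, k x = ⨆ i, f i x) ∧ Good k

/-! ## Objects and conditions -/

/-- an object of the category: an algebra over the base algebra whose base morphism is good, with a
sequence of generators -/
structure Obj : Type 1 where
  A : BA
  α : Ordinal.{0}
  b : Ordinal.{0} → El A.B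
  out : ∀ ξ, α ≤ ξ → b ξ = ⊥
  good : Good (bas A)
  gen : ∀ (C : BA) (h k : BMor A C), h ⊤ = k ⊤ → (∀ ξ, h (b ξ) = k (b ξ)) → ∀ x, h x = k x

/-- an object as a set -/
noncomputable def Obj.code (v : Obj) : V :=
  ZFSet.pair v.A.B (ZFSet.pair v.A.g.gr
    (ZFSet.range fun ξ : Set.Iio v.α => ZFSet.pair ξ.1.toZFSet (v.b ξ.1).val))

/-- a condition: an object and a nonzero element of its algebra -/
structure Cd : Type 1 where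
  v : Obj
  x : El v.A.B
  ne : x ≠ ⊥

/-- a condition as a set -/
noncomputable def Cd.code (c : Cd) : V := ZFSet.pair c.v.code c.x.val

/-- `h` shows that `c` is below `c'` -/
structure IsTr (c c' : Cd) (h : BMor c'.v.A c.v.A) : Prop where
  len : c'.v.α ≤ c.v.α
  good : Good h
  top : h ⊤ = c.x
  gens : ∀ ξ < c'.v.α, h (c'.v.b ξ) = c.v.b ξ ⊓ c.x
  img : h c'.x = c.x

/-- the order of conditions -/
def Cd.le (c c' : Cd) : Prop := ∃ h, IsTr c c' h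

/-- the order of conditions, for sets -/
def leU (u u' : V) : Prop := ∃ c c' : Cd, u = c.code ∧ u' = c'.code ∧ c.le c'

/-- the category forcing -/
noncomputable def UU (κ : Ordinal.{0}) : V := (V_ κ).sep fun u => ∃ c : Cd, u = c.code

/-- UA. Conditions. -/
def T_UA : Prop := (∀ v v' : Obj, v.code = v'.code → v = v') ∧
  (∀ c c' : Cd, c.code = c'.code → c = c') ∧
  (∀ c : Cd, IsTr c c ((BMor.id c.v.A).res c.x)) ∧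
  (∀ (c1 c2 c3 : Cd) (h : BMor c3.v.A c2.v.A) (k : BMor c2.v.A c1.v.A), IsTr c2 c3 h →
    IsTr c1 c2 k → IsTr c1 c3 (h.comp k)) ∧
  (∀ (c : Cd) (v : Obj) (x x' : El v.A.B) (hx : x ≠ ⊥) (hx' : x' ≠ ⊥) (h h' : BMor v.A c.v.A),
    IsTr c ⟨v, x, hx⟩ h → IsTr c ⟨v, x', hx'⟩ h' → h = h') ∧
  (∀ (c c' : Cd) (h : BMor c'.v.A c.v.A), IsTr c c' h → ∀ (y : El c.v.A.B) (hy : y ≠ ⊥),
    y ≤ c.x → IsTr ⟨c.v, y, hy⟩ c' (h.res y)) ∧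
  (∀ (c c' : Cd) (h : BMor c'.v.A c.v.A), IsTr c c' h → ∀ (z : El c'.v.A.B) (hz : z ≠ ⊥)
    (hy : h z ≠ ⊥), IsTr ⟨c.v, h z, hy⟩ ⟨c'.v, z, hz⟩ (h.res (h z))) ∧
  ∀ (c : Cd) (v : Obj) (x x' : El v.A.B) (hx : x ≠ ⊥) (hx' : x' ≠ ⊥) (h : BMor v.A c.v.A),
    IsTr c ⟨v, x, hx⟩ h → x ≤ x' → IsTr c ⟨v, x', hx'⟩ h

/-- UO. The least object; every condition is below it. -/
def T_UO : Prop := (⊤ : El B0) ≠ ⊥ ∧ ∃ v0 : Obj, v0.A = BA0 ∧ v0.α = 0 ∧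
  ∀ (c : Cd) (hne : (⊤ : El v0.A.B) ≠ ⊥), ∃ h, IsTr c ⟨v0, ⊤, hne⟩ h ∧
    ∀ (x : El v0.A.B) (y : El B0), x.val = y.val → h x = c.v.A.g y ⊓ c.x

/-- UP. The order of sets. -/
def T_UP : Prop := (∀ c c' : Cd, leU c.code c'.code ↔ c.le c') ∧
  (∀ c : Cd, leU c.code c.code) ∧ (∀ u v w, leU u v → leU v w → leU u w) ∧
  ∀ κ : Ordinal.{0}, (∀ u ∈ UU κ, leU u u) ∧ ∀ u, u ∈ UU κ ↔ ∃ c : Cd, u = c.code ∧ c.code ∈ V_ κ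

/-- `Z` is the regular open algebra of the category forcing of `κ`, and `i` is the system of the
canonical morphisms `i v x = [(v, x)]` -/
structure CU (κ : Ordinal.{0}) (Z : BA) (i : ∀ v : Obj, BMor v.A Z) : Prop where
  alg : Z.B = RO (UU κ) leU
  val : ∀ c : Cd, c.code ∈ V_ κ → (i c.v c.x).val = cl (UU κ) leU c.code
  out : ∀ v : Obj, v.code ∉ V_ κ → ∀ x, i v x = ⊥
  base : ∀ c : Cd, c.v.A = BA0 → c.v.α = 0 → ∀ x : El B0, x.val = c.x.val → Z.g x = i c.v c.x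

/-- UB. Existence. -/
def T_UB : Prop := ∀ κ, Inac κ → ∃ Z i, CU κ Z i

/-- UC. Properties. -/
def T_UC : Prop := ∀ κ Z i, Inac κ → CU κ Z i →
  (∀ c c' : Cd, c.code ∈ V_ κ → c'.code ∈ V_ κ → c.le c' → i c.v c.x ≤ i c'.v c'.x) ∧
  (∀ (c c' : Cd) (h : BMor c'.v.A c.v.A), c.code ∈ V_ κ → c'.code ∈ V_ κ → IsTr c c' h →
    ∀ z, i c.v (h z) = i c'.v z ⊓ i c.v c.x) ∧
  (∀ v : Obj, v.code ∈ V_ κ → ∀ x, i v x = ⊥ → x = ⊥) ∧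
  (∀ Y : El Z.B, Y ≠ ⊥ → ∃ c : Cd, c.code ∈ V_ κ ∧ i c.v c.x ≤ Y) ∧
  (∀ Y : El Z.B, ∀ c : Cd, c.code ∈ V_ κ → (c.code ∈ Y.val ↔ i c.v c.x ≤ Y)) ∧
  (∀ Y : El Z.B, ∀ u ∈ Y.val, ∃ c : Cd, u = c.code ∧ c.code ∈ V_ κ) ∧
  (∀ Y Y' : El Z.B, (∀ c : Cd, c.code ∈ V_ κ → i c.v c.x ≤ Y → i c.v c.x ≤ Y') → Y ≤ Y') ∧
  (∀ (Y : El Z.B) (c c' : Cd), c.code ∈ V_ κ → c'.code ∈ V_ κ →
    Y ⊓ (i c.v c.x ⊓ i c'.v c'.x) ≠ ⊥ → ∃ c2 : Cd, c2.code ∈ V_ κ ∧ c2.le c ∧ c2.le c' ∧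
      i c2.v c2.x ≤ Y) ∧
  ∀ v0 : Obj, v0.A = BA0 → v0.α = 0 → v0.code ∈ V_ κ ∧ i v0 ⊤ = ⊤

/-- UV. Closure properties of `V_κ`. -/
def T_UV : Prop := ∀ κ, Inac κ →
  (∀ ρ < κ, ρ + ω < κ) ∧ (∀ x ∈ V_ κ, ZFSet.powerset x ∈ V_ κ) ∧
  (∀ x ∈ V_ κ, ∀ y ⊆ x, y ∈ V_ κ) ∧
  (∀ x ∈ V_ κ, ∀ y ∈ x, y ∈ V_ κ) ∧
  (∀ x ∈ V_ κ, ∀ y ∈ V_ κ, ZFSet.pair x y ∈ V_ κ) ∧ B0 ∈ V_ κ ∧
  (∀ (I : Type 1) (c f : I → V), Function.Injective c → ∀ x ∈ V_ κ, (∀ i, c i ∈ x) →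
    (∀ i, f i ∈ V_ κ) → ∃ ρ < κ, ω ≤ ρ ∧ (∀ i, c i ∈ V_ ρ) ∧ ∀ i, f i ∈ V_ ρ) ∧
  (∀ f : ℕ → V, (∀ n, f n ∈ V_ κ) → ∃ ρ < κ, ω ≤ ρ ∧ ∀ n, f n ∈ V_ ρ) ∧
  (∀ v : Obj, v.code ∈ V_ κ ↔ v.A.B ∈ V_ κ ∧ v.α < κ) ∧
  (∀ c : Cd, c.code ∈ V_ κ ↔ c.v.code ∈ V_ κ) ∧
  (∀ (I : Type 1) (c : I → V) (f : I → Ordinal.{0}), Function.Injective c → ∀ x ∈ V_ κ,
    (∀ i, c i ∈ x) → (∀ i, f i < κ) → ∃ α < κ, ∀ i, f i ≤ α) ∧
  ∀ x ∈ V_ κ, x ≠ ∅ → ∃ α < κ, ∃ e : Ordinal.{0} → V, (∀ ξ, e ξ ∈ x) ∧ ∀ y ∈ x, ∃ ξ < α, e ξ = y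

/-! ## Knowledge -/

/-- the order of the category forcing as a set -/
noncomputable def UL (κ : Ordinal.{0}) : V :=
  (ZFSet.prod (UU κ) (UU κ)).sep fun q => leU (fst q) (snd q)

/-- the function `u ↦ [u]` -/
noncomputable def UCl (κ : Ordinal.{0}) : V := resS (UU κ) fun u => cl (UU κ) leU u

/-- `z` is a pair of the graph of the morphism for the pair `q` of conditions, and a witness -/
def HWr (q z : V) : Prop := ∃ (c c' : Cd) (k : BMor c'.v.A c.v.A) (w : V),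
  q = ZFSet.pair c.code c'.code ∧ IsTr c c' k ∧ GoodW k w ∧ z = ZFSet.pair k.gr w

/-- a choice of such a pair -/
noncomputable def hwV (q : V) : V := open Classical in if h : ∃ z, HWr q z then h.choose else ∅

/-- the function which maps `(u', u)` to the graph of the morphism and a witness of its
goodness -/
noncomputable def UH (κ : Ordinal.{0}) : V := resS (UL κ) hwV

/-- `z` is the parameter of the morphism of the object of `u` -/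
def PMr {Z : BA} (i : ∀ v : Obj, BMor v.A Z) (u z : V) : Prop :=
  ∃ c : Cd, u = c.code ∧ z = prm (i c.v).toMor

/-- the parameter of the morphism of the object of `u` -/
noncomputable def pmV {Z : BA} (i : ∀ v : Obj, BMor v.A Z) (u : V) : V :=
  open Classical in if h : ∃ z, PMr i u z then h.choose else ∅

/-- the function which maps a condition to the parameter of the morphism of its object -/
noncomputable def UM (κ : Ordinal.{0}) {Z : BA} (i : ∀ v : Obj, BMor v.A Z) : V :=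
  resS (UU κ) (pmV i)

/-- the parameter for the goodness of `i v` -/
noncomputable def par (κ : Ordinal.{0}) {Z : BA} (i : ∀ v : Obj, BMor v.A Z) (t : V) : V :=
  ZFSet.pair (UU κ) (ZFSet.pair (UL κ) (ZFSet.pair Z.B (ZFSet.pair (UCl κ)
    (ZFSet.pair (UH κ) (ZFSet.pair (UM κ i) t)))))

/-- the graph of the morphism in the parameter of `u` -/
noncomputable def jj (PM u : V) : V := fst (snd (snd (app PM u)))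

/-- the elements of `N'` which know the components of `par κ i t` -/
structure KP (κ : Ordinal.{0}) {Z : BA} (i : ∀ v : Obj, BMor v.A Z) (N' N p' t : V) :
    Type 1 where
  (U L R CL HW PM t' : V)
  mem : U ∈ N' ∧ L ∈ N' ∧ R ∈ N' ∧ CL ∈ N' ∧ HW ∈ N' ∧ PM ∈ N' ∧ t' ∈ N'
  kn : ∀ (A : BA) (b : El A.B) (τ : V → V → El A.B), BMap N' N b τ → b ≠ ⊥ →
    τ p' (par κ i t) = b → τ U (UU κ) = b ∧ τ L (UL κ) = b ∧ τ R Z.B = b ∧ τ CL (UCl κ) = b ∧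
      τ HW (UH κ) = b ∧ τ PM (UM κ i) = b ∧ τ t' t = b
  f1 : ∀ q ∈ L, ∃ a ∈ U, ∃ c ∈ U, q = ZFSet.pair a c
  f2 : ∀ u ∈ U, u = ZFSet.pair (fst u) (snd u) ∧ snd u ∈ fst (fst u) ∧ app CL u ∈ R ∧
    app CL u ≠ ∅ ∧ ZFSet.pair (snd u) (app CL u) ∈ jj PM u
  f3 : ∀ a c, ZFSet.pair a c ∈ L → app CL a ⊆ app CL c ∧
    ZFSet.pair (snd c) (snd a) ∈ fst (app HW (ZFSet.pair a c)) ∧
    ∀ x y, ZFSet.pair x y ∈ fst (app HW (ZFSet.pair a c)) → ∀ z, ZFSet.pair y z ∈ jj PM a →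
      x ∈ fst (fst c) ∧ ∃ z', ZFSet.pair x z' ∈ jj PM c ∧ z' ∈ R ∧ z ⊆ z'
  f4 : ∀ c ∈ U, ∀ g ∈ R, ∀ x ∈ R, x ≠ ∅ → ∃ z ∈ R, z ≠ ∅ ∧ z ⊆ x ∧ (z ∩ (app CL c ∩ g) = ∅ ∨
    ∃ a ∈ U, ZFSet.pair a c ∈ L ∧ z = app CL a ∧ z ⊆ g)
  f5 : t' ∈ U

/-- UKA. Elements which know the parameters. -/
def T_UKA : Prop := ∀ κ Z (i : ∀ v : Obj, BMor v.A Z), Inac κ → CU κ Z i →
  ∀ c0 : Cd, c0.code ∈ V_ κ → ∀ (A : BA) (N' N p' : V) (b : El A.B) (σ : V → V → El A.B),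
    NP N' N → BMap N' N b σ → b ≠ ⊥ → σ p' (par κ i c0.code) = b →
      Nonempty (KP κ i N' N p' c0.code)

/-- UKB. The decreasing sequence. -/
def T_UKB : Prop := ∀ κ Z (i : ∀ v : Obj, BMor v.A Z), Inac κ → CU κ Z i →
  ∀ c0 : Cd, c0.code ∈ V_ κ → ∀ (A : BA) (N' N p' G' : V) (b : El A.B) (σ : V → V → El A.B),
    NP N' N → BMap N' N b σ → b ≠ ⊥ → σ p' (par κ i c0.code) = b →
      ∀ P : KP κ i N' N p' c0.code, NGen N' P.R G' → app P.CL P.t' ∈ G' →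
        ∃ u : ℕ → V, u 0 = P.t' ∧ (∀ n, u n ∈ P.U ∧ app P.CL (u n) ∈ G' ∧
          ZFSet.pair (u (n + 1)) (u n) ∈ P.L) ∧ ∀ g ∈ G', ∃ n, app P.CL (u n) ⊆ g

/-- all that is needed in the construction of the lift -/
structure Kn (κ : Ordinal.{0}) {Z : BA} (i : ∀ v : Obj, BMor v.A Z) (N' N w p' p G' u0 : V) :
    Type 1 where
  (u G B x h t j : ℕ → V)
  np : NP N' N
  zero : u 0 = u0
  mem : ∀ n, u n ∈ N' ∧ B n ∈ N' ∧ x n ∈ N' ∧ h n ∈ N' ∧ t n ∈ N' ∧ j n ∈ N'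
  gen : ∀ n, NGen N' (B n) (G n)
  xG : ∀ n, x n ∈ G n
  hx : ∀ n, ZFSet.pair (x n) (x (n + 1)) ∈ h n
  hG : ∀ n a b, ZFSet.pair a b ∈ h n → b ∈ G (n + 1) → a ∈ G n
  jG : ∀ n, ∀ a ∈ G n, ∃ y ∈ G', ZFSet.pair a y ∈ j n
  ev : ∀ n, ∀ r ∈ N', ∃ r2 ∈ N', ev w r (G n) = ev w r2 G'
  k1 : ∀ (A : BA) (b : El A.B) (τ : V → V → El A.B), BMap N' N b τ → b ≠ ⊥ → τ p' p = b →
    ∀ n y, τ (u n) y ≠ ⊥ → ∃ c : Cd, c.code ∈ V_ κ ∧ c.code = y ∧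
      τ (u n) y ≤ τ (x n) c.x.val ⊓ (τ (B n) c.v.A.B ⊓ τ (j n) (i c.v).gr)
  k2 : ∀ (A : BA) (b : El A.B) (τ : V → V → El A.B), BMap N' N b τ → b ≠ ⊥ → τ p' p = b →
    ∀ n (c c' : Cd), τ (u n) c.code ⊓ τ (u (n + 1)) c'.code ≠ ⊥ →
      ∃ (k : BMor c.v.A c'.v.A) (s : V), IsTr c' c k ∧ GoodW k s ∧
        τ (u n) c.code ⊓ τ (u (n + 1)) c'.code ≤ τ (h n) k.gr ⊓ τ (t n) s
  k3 : ∀ g ∈ G', ∃ n, ∀ (A : BA) (b : El A.B) (τ : V → V → El A.B), BMap N' N b τ → b ≠ ⊥ →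
    τ p' p = b → ∀ (c : Cd) (y : V), τ g y ⊓ τ (u n) c.code ≠ ⊥ → i c.v c.x ≤ mkEl Z.B y

/-- UK. Knowledge in frames for `i v`. -/
def T_UK : Prop := ∀ κ Z (i : ∀ v : Obj, BMor v.A Z), Inac κ → CU κ Z i →
  ∀ (v : Obj) (hne : (⊤ : El v.A.B) ≠ ⊥), v.code ∈ V_ κ → ∃ p, ∀ F : Frame (i v) p,
    ∃ u0 ∈ F.N', Nonempty (Kn κ i F.N' F.N F.w F.p' p F.G' u0) ∧
      F.σ u0 (Cd.code ⟨v, ⊤, hne⟩) = F.b

/-! ## Stages -/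

/-- tuples -/
noncomputable def tup : List V → V
  | [] => ∅
  | a :: l => ZFSet.pair a (tup l)

/-- TU. Preservation of a tuple is preservation of the members. -/
def T_TU : Prop := ∀ (B C : V) [IsCBA B] [IsCBA C] (N' N : V) (b : El B) (e : El C)
  (τ : V → V → El B) (τ' : V → V → El C) (k : Mor B C), NP N' N → BMap N' N b τ →
    BMap N' N e τ' → e ≤ k b → ∀ l : List V, (∀ a ∈ l, a ∈ N') → tup l ∈ N' ∧
      ((∀ z, e ⊓ k (τ (tup l) z) ≤ τ' (tup l) z) → ∀ a ∈ l, ∀ z, e ⊓ k (τ a z) ≤ τ' a z)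

section

variable {κ : Ordinal.{0}} {Z : BA} {i : ∀ v : Obj, BMor v.A Z} {N' N w p' p G' u0 : V}

/-- the `n`-th stage of the construction: an algebra with a partition `S` of unity; for `s ∈ S` the
elements below `s` are the image of the algebra of the condition `c s` -/
structure Stg (K : Kn κ i N' N w p' p G' u0) (n : ℕ) : Type 1 where
  A : BA
  σ : V → V → El A.B
  S : Set (El A.B)
  c : El A.B → Cd
  ι : ∀ s : El A.B, BMor (c s).v.A A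
  map : BMap N' N ⊤ σ
  kp : σ p' p = ⊤
  kw : σ w w1 = ⊤
  sc : ∀ r ∈ N', A.g (acc w (ev w r G')) = ⊤
  rank : A.B ∈ V_ κ
  good : Good (bas A)
  cκ : ∀ s ∈ S, (c s).code ∈ V_ κ
  top : ∀ s ∈ S, ι s ⊤ = s
  onto : ∀ s ∈ S, ∀ z ≤ s, ∃ y, ι s y = z
  ne : ∀ s ∈ S, s ≠ ⊥
  dis : ∀ s ∈ S, ∀ t ∈ S, s ≠ t → s ⊓ t = ⊥
  sup : sSup S = ⊤
  val : ∀ s ∈ S, s ≤ σ (K.u n) (c s).code
  com : ∀ s ∈ S, ∀ x ∈ K.G n, ∀ z, σ x z ⊓ s ≤ ι s (mkEl (c s).v.A.B z)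

/-- the stage `T'` extends the stage `T`, and `q` is preserved -/
structure StgLe {K : Kn κ i N' N w p' p G' u0} {n : ℕ} (T : Stg K n) (T' : Stg K (n + 1))
    (f : BMor T.A T'.A) (q : V) : Prop where
  good : Good f
  unit : f ⊤ = ⊤
  inj : ∀ x, f x = ⊥ → x = ⊥
  keep : ∀ z, f (T.σ q z) ≤ T'.σ q z
  link : ∀ s ∈ T.S, ∀ s' ∈ T'.S, f s ⊓ s' ≠ ⊥ → s' ≤ f s ∧
    ∃ k : BMor (T.c s).v.A (T'.c s').v.A, IsTr (T'.c s') (T.c s) k ∧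
      ∀ y, f (T.ι s y) ⊓ s' = T'.ι s' (k y)

end

/-- UD. The first stage. -/
def T_UD : Prop := ∀ (κ : Ordinal.{0}) (Z : BA) (i : ∀ v : Obj, BMor v.A Z), Inac κ →
  CU κ Z i → ∀ (v : Obj) (hne : (⊤ : El v.A.B) ≠ ⊥) (p u0 : V), v.code ∈ V_ κ →
  ∀ (F : Frame (i v) p) (K : Kn κ i F.N' F.N F.w F.p' p F.G' u0),
    F.σ u0 (Cd.code ⟨v, ⊤, hne⟩) = F.b → ∃ (T : Stg K 0) (f0 : BMor v.A T.A),
      f0 F.b = ⊤ ∧ (∀ x, f0 x = ⊥ → x ⊓ F.b = ⊥) ∧ (∀ x y, T.σ x y = f0 (F.σ x y)) ∧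
      ⊤ ∈ T.S ∧ T.c ⊤ = ⟨v, ⊤, hne⟩ ∧
      ∀ (x : El v.A.B) (x' : El (T.c ⊤).v.A.B), x'.val = x.val → T.ι ⊤ x' = f0 x

/-- UE. The lift for one element of the partition. -/
def T_UE : Prop := ∀ (κ : Ordinal.{0}) (Z : BA) (i : ∀ v : Obj, BMor v.A Z)
  (N' N w p' p G' u0 : V) (K : Kn κ i N' N w p' p G' u0) (n : ℕ) (c c' : Cd)
  (b : El c.v.A.B) (τ : V → V → El c.v.A.B), b ≠ ⊥ → BMap N' N b τ → τ p' p = b → τ w w1 = b →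
    τ (K.u n) c.code = b → τ (K.u (n + 1)) c'.code = b →
    (∀ x ∈ K.G n, ∀ z, τ x z ≤ mkEl c.v.A.B z) →
    (∀ r ∈ N', b ≤ c.v.A.g (acc w (ev w r G'))) → ∀ q ∈ N',
      ∃ k : BMor c.v.A c'.v.A, IsTr c' c k ∧ ∃ (e : El c'.v.A.B) (τ' : V → V → El c'.v.A.B),
        e ≤ k b ∧ (∀ b', e ≤ k b' → b ≤ b') ∧ BMap N' N e τ' ∧
        (∀ x ∈ K.G (n + 1), ∀ z, τ' x z ≤ mkEl c'.v.A.B z) ∧ ∀ z, e ⊓ k (τ q z) ≤ τ' q z

/-- US. The next stage. -/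
def T_US : Prop := ∀ (κ : Ordinal.{0}) (Z : BA) (i : ∀ v : Obj, BMor v.A Z), Inac κ →
  ∀ (N' N w p' p G' u0 : V) (K : Kn κ i N' N w p' p G' u0) (n : ℕ) (T : Stg K n), p' ∈ N' →
    w ∈ N' → ∀ q ∈ N', ∃ (T' : Stg K (n + 1)) (f : BMor T.A T'.A), StgLe T T' f q

/-- UL. The limit is an object. -/
def T_UL : Prop := ∀ (κ : Ordinal.{0}) (Z : BA) (i : ∀ v : Obj, BMor v.A Z), Inac κ →
  ∀ (N' N w p' p G' u0 : V) (K : Kn κ i N' N w p' p G' u0) (T : ∀ n, Stg K n)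
  (f : ∀ n, BMor (T n).A (T (n + 1)).A) (q : ℕ → V), (∀ n, StgLe (T n) (T (n + 1)) (f n) (q n)) →
  ∀ (Y : BA) (k : ∀ n, BMor (T n).A Y), Lim (fun n => (T n).A) f Y k → Y.B ∈ V_ κ →
    (∀ n, Good (k n)) → ∃ (α : Ordinal.{0}) (b : Ordinal.{0} → El Y.B) (h1 : _) (h2 : _) (h3 : _),
      (Obj.mk Y α b h1 h2 h3).code ∈ V_ κ ∧ ∀ n, ∀ s ∈ (T n).S, ∀ hs : k n s ≠ ⊥,
        IsTr ⟨Obj.mk Y α b h1 h2 h3, k n s, hs⟩ ((T n).c s) (((T n).ι s).comp (k n))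

/-- UZ. The canonical morphisms are good. -/
def T_UZ : Prop := ∀ κ Z (i : ∀ v : Obj, BMor v.A Z), Inac κ → CU κ Z i →
  ∀ v : Obj, v.code ∈ V_ κ → Good (i v)

end SF
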